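import Pool.Agent.H440.CO.Frob
import Pool.Agent.H440.CO.Twist

/-!
# The order of Tate's `Φ₁` at `s = dim 𝒴` for all varieties with CM over a number field, over the ray
# class fields and over function fields of any transcendence degree

`M` is a number field and `X` is a smooth projective variety over `M` whose cohomology `H^i(X)` is of CM
type over `M`, of odd weight: the eigenvalues of the Frobenius at almost all primes `v` are the numbers
`N(v)^(i/2) χ_j(v)` for unitary Hecke characters `χ_1, …, χ_N` of `M` of nonzero infinity types.  For `i = 1`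
these are the varieties for which the abelian variety `Pic⁰ X` has complex multiplication over `M`
(Shimura, Taniyama), and `N = 2 dim Pic⁰ X`.

For an ideal `𝔮` of `M` let `E` be the narrow ray class field of `M` of modulus `𝔮`, and let `K` be a
field finitely generated over `E`: the function field of a variety `𝒵` over `E` of dimension `e ≥ 0`, for
which the number of the points over the residue fields `κ` (and their extensions) is
`|κ|^e + O(|κ|^(e - 1))`.  By Deligne's theorem this holds if `𝒵` is geometrically irreducible and the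
Albanese variety of a smooth compactification is trivial; for instance, it holds for the varieties that
are geometrically rational, and for open subsets of K3 surfaces; it holds for `e = 0`, `K = E`.  Let
`𝒴` be a model of `K` over the ring of integers of `E` without fibres above the primes that divide `𝔮`.
Then `dim 𝒴 = e + 1`, and the function `Φ_i` of the problem for the variety `X` over `K` is the product over
the closed points of `𝒴`.

We prove, without any hypothesis, that the function `Φ_i` of `X` over `K` is analytic for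
`Re s > e + i/2` (for `i = 1` this is half of the strip of the problem, with the point
`s = dim 𝒴 = e + 1` inside), that its order at the point `s = e + (i + 1)/2` (for `i = 1`:
`s = dim 𝒴`) is the sum of the orders at `(i + 1)/2` of the entire functions `Λ_η`, the `L`-functions of
`H^i(X)` over `M` twisted by the characters `η` of the narrow ray class group modulo `𝔮`, and
* this order is at most `C N [E : M] (1 + log U)`;
* the number of the characters `η` for which the order of `Λ_η` is at least `k` is at most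
  `C N [E : M] U e^(-c k / N)`, for every `k ≥ 1`.
Here `U` is the number of the residue classes modulo `𝔮` which contain a unit of `M`, and the constants
`c > 0` and `C` depend only on the field `M` and on `i`: they are the same for all varieties `X` (of any
dimension, with any Betti number `N` and any bad reduction), all moduli `𝔮` and all fields `K`.  So, by
the conjecture, the rank of `Pic⁰ X` over `K` divided by `N [E : M]` would be bounded by a constant for all
`𝔮` if `M` is imaginary quadratic, and by any small multiple of the trivial bound, which is a constant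
times `log N(𝔮)`, for the moduli with `U ≤ N(𝔮)^δ`, `δ` small (such `𝔮` exist above every ideal, for
every `δ > 0`).

Proof.  `Pool.Agent.H440.CO.dn_center` bounds the orders for all the Hecke characters modulo `𝔮` of one
infinity type (from the large sieve and the mollifier of `N784.CZ`); `Pool.Agent.H440.CO.twist_core` gives
the twists and the ray class field, with constants that depend on the finite set of the possible types
only; `Pool.Agent.H440.CO.closed_prod` compares the product over the closed points of `𝒴` with the product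
over the primes of `E`.
-/

set_option autoImplicit false

open NumberField IsDedekindDomain

namespace Pool.Agent.Results.MP_9faec4_nt.CMCentralOrders

section variety

variable {M : Type} [Field M] {l : ℕ}

/-- The set `X` of homogeneous polynomials over `𝓞_M` in `l` variables gives a projective variety over
`M`.  For a field `κ` with `q` elements and a homomorphism `𝓞_M → κ` this is `(q - 1)` times the number
of the points of `X` with coordinates in `κ`: the number of the nonzero solutions of the equations. -/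
noncomputable def cone (X : Set (MvPolynomial (Fin l) (𝓞 M))) {κ : Type} [Field κ]
    (φ : 𝓞 M →+* κ) : ℕ :=
  Nat.card {u : Fin l → κ // u ≠ 0 ∧ ∀ f ∈ X, MvPolynomial.eval₂ φ u f = 0}

/-- Let `S` be a ring with a homomorphism `ι : 𝓞_M → S` and `y` a closed point of its spectrum with
a residue field of `q_y` elements.  The elements of the finite multiset `A` are the eigenvalues of the
geometric Frobenius at `y` on `H^i` of the fibre at `y` of `X`, for a variety `X` of dimension `d`: there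
are finite multisets `β_k` of complex numbers of absolute value `q_y^{k/2}`, `k = 0, …, 2d`, with
`β_i = A`, such that for every finite extension `κ` of the residue field of `y`, of degree `r`, the number
of the points of `X` with coordinates in `κ` is `∑ (-1)^k ∑_{z ∈ β_k} z^r`.  By the theorem of Deligne such
`β_k` exist if the fibre is smooth; they are unique. -/
def IsFrobenius (X : Set (MvPolynomial (Fin l) (𝓞 M))) (d i : ℕ) {S : Type} [CommRing S]
    (ι : 𝓞 M →+* S) (y : Ideal S) (A : Multiset ℂ) : Prop :=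
  ∃ β : ℕ → Multiset ℂ, β i = A ∧
    (∀ k, ∀ z ∈ β k, ‖z‖ = (Nat.card (S ⧸ y) : ℝ) ^ ((k : ℝ) / 2)) ∧
    ∀ (κ : Type) [Field κ] [Finite κ] (φ : S →+* κ) (r : ℕ), RingHom.ker φ = y →
      Nat.card κ = Nat.card (S ⧸ y) ^ r →
      (cone X (φ.comp ι) : ℂ) = ((Nat.card (S ⧸ y) : ℂ) ^ r - 1) *
        ∑ k ∈ Finset.range (2 * d + 1), (-1 : ℂ) ^ k * ((β k).map (fun z => z ^ r)).sum

end variety

section chars

variable {M : Type} [Field M] [NumberField M]

/-- `x` is totally positive -/
def TotPos (x : 𝓞 M) : Prop := ∀ τ : M →+* ℝ, 0 < τ (x : M)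

/-- the archimedean part `∏_φ (φ(x)/|φ(x)|)^(n_φ)` of a unitary Hecke character -/
noncomputable def phase (n : (M →+* ℂ) → ℕ) (x : M) : ℂ :=
  ∏ φ : M →+* ℂ, (φ x / (‖φ x‖ : ℂ)) ^ n φ

/-- `χ` is a (not necessarily primitive) unitary Hecke character modulo `𝔪` of infinity type `n` (with
arbitrary signs at the real places), as a function on the ideals, zero if not prime to `𝔪`; for `n = 0`
these are the characters of the narrow ray class group modulo `𝔪` -/
structure IsHeckeChar (𝔪 : Ideal (𝓞 M)) (n : (M →+* ℂ) → ℕ) (χ : Ideal (𝓞 M) →*₀ ℂ) : Prop where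
  supp : ∀ 𝔞 : Ideal (𝓞 M), 𝔞 ≠ ⊥ → (χ 𝔞 ≠ 0 ↔ IsCoprime 𝔞 𝔪)
  ray : ∀ x : 𝓞 M, x ≠ 0 → x - 1 ∈ 𝔪 → TotPos x → χ (Ideal.span {x}) = phase n (x : M)

/-- The cohomology `H^i(X)` of the projective variety `X` over `M`, of dimension `d`, is of CM type of odd
weight: at the primes `v` not dividing `𝔪` the eigenvalues of the Frobenius on it are
`N(v)^(i/2) χ_j(v)`, `j ≤ N`, for Hecke characters `χ_j` modulo `𝔪` of infinity types `n_j`.  These types are
nonzero, the exponents are at most `i` (the Hodge numbers of `H^i(X)` are zero outside of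
`0 ≤ p, q ≤ i`), and one of the exponents of two conjugate embeddings is zero (the phases of `x` at
conjugate embeddings are inverse to each other, so this is only a normalisation). -/
structure IsCM {l : ℕ} (X : Set (MvPolynomial (Fin l) (𝓞 M))) (d i : ℕ) (𝔪 : Ideal (𝓞 M)) {N : ℕ}
    (n : Fin N → (M →+* ℂ) → ℕ) (χ : Fin N → Ideal (𝓞 M) →*₀ ℂ) : Prop where
  le : i ≤ 2 * d
  conj : ∀ j, ∀ φ : M →+* ℂ, n j φ = 0 ∨ n j (ComplexEmbedding.conjugate φ) = 0
  ne_zero : ∀ j, n j ≠ 0
  hodge : ∀ j φ, n j φ ≤ i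
  char : ∀ j, IsHeckeChar 𝔪 (n j) (χ j)
  frobenius : ∀ v : HeightOneSpectrum (𝓞 M), ¬ 𝔪 ≤ v.asIdeal →
    IsFrobenius X d i (RingHom.id (𝓞 M)) v.asIdeal (Finset.univ.val.map
      (fun j => (Ideal.absNorm v.asIdeal : ℂ) ^ ((i : ℂ) / 2) * χ j v.asIdeal))

/-- the number of residue classes modulo `𝔮` which contain a unit of `M` -/
noncomputable def unitClasses (𝔮 : Ideal (𝓞 M)) : ℕ :=
  (Set.range (fun u : (𝓞 M)ˣ => Ideal.Quotient.mk 𝔮 (u : 𝓞 M))).ncard

/-- `E` is the (narrow) ray class field of `M` of modulus `𝔮`: `art` is the Artin map (used only for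
the ideals prime to `𝔮`), with values in the automorphisms of the ring of integers of `E`
(equivalently, of `E`), such that
* `art` is multiplicative,
* the integers of `M` are the invariants (so `E/M` is Galois and `art` is surjective onto its group),
* the kernel consists of the ideals `𝔞` with `(a) 𝔞 = (b)` for some totally positive
  `a, b ≡ 1 mod 𝔮` (so the Galois group is the narrow ray class group modulo `𝔮`),
* `E/M` is unramified outside `𝔮`: the inertia group at every prime `w` of `E` not dividing `𝔮` is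
  trivial,
* for every prime ideal `𝔭` not dividing `𝔮`, `art 𝔭` is the Frobenius automorphism
  `x ↦ x ^ N(𝔭)` at all primes `w` of `E` above `𝔭`. -/
structure IsRayClassField (𝔮 : Ideal (𝓞 M)) (E : Type) [Field E] [NumberField E] [Algebra M E]
    (art : Ideal (𝓞 M) → (𝓞 E ≃+* 𝓞 E)) : Prop where
  mul : ∀ 𝔞 𝔟 : Ideal (𝓞 M), IsCoprime 𝔞 𝔮 → IsCoprime 𝔟 𝔮 → art (𝔞 * 𝔟) = art 𝔞 * art 𝔟
  invariants : ∀ x : 𝓞 E, (∀ 𝔞 : Ideal (𝓞 M), IsCoprime 𝔞 𝔮 → art 𝔞 x = x) ↔
    x ∈ (algebraMap (𝓞 M) (𝓞 E)).range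
  kernel : ∀ 𝔞 : Ideal (𝓞 M), IsCoprime 𝔞 𝔮 → (art 𝔞 = 1 ↔ ∃ a b : 𝓞 M, a - 1 ∈ 𝔮 ∧ b - 1 ∈ 𝔮 ∧
    TotPos a ∧ TotPos b ∧ Ideal.span {a} * 𝔞 = Ideal.span {b})
  unramified : ∀ w : HeightOneSpectrum (𝓞 E), ¬ 𝔮.map (algebraMap (𝓞 M) (𝓞 E)) ≤ w.asIdeal →
    ∀ 𝔞 : Ideal (𝓞 M), IsCoprime 𝔞 𝔮 → (∀ x, art 𝔞 x - x ∈ w.asIdeal) → art 𝔞 = 1
  frobenius : ∀ 𝔭 : Ideal (𝓞 M), 𝔭.IsPrime → IsCoprime 𝔭 𝔮 → ∀ w : HeightOneSpectrum (𝓞 E),
    𝔭.map (algebraMap (𝓞 M) (𝓞 E)) ≤ w.asIdeal → ∀ x : 𝓞 E, art 𝔭 x - x ^ Ideal.absNorm 𝔭 ∈ w.asIdeal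

/-- `Λ` is the `L`-function of `H^i(X)` over `M`, twisted by the character `η` of the narrow ray class
group modulo `𝔮`: an entire function with the Euler product over the primes `v` not dividing `𝔮`, with
the factors `∏_α (1 - α η(v) N(v)^(-s))⁻¹`, `α` the eigenvalues of the Frobenius, for `Re s > i/2 + 1`. -/
structure IsTwist {l : ℕ} (X : Set (MvPolynomial (Fin l) (𝓞 M))) (d i : ℕ) (𝔮 : Ideal (𝓞 M))
    (η : Ideal (𝓞 M) →*₀ ℂ) (Λ : ℂ → ℂ) : Prop where
  entire : Differentiable ℂ Λ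
  product : ∀ A : HeightOneSpectrum (𝓞 M) → Multiset ℂ,
    (∀ v : HeightOneSpectrum (𝓞 M), ¬ 𝔮 ≤ v.asIdeal →
      IsFrobenius X d i (RingHom.id (𝓞 M)) v.asIdeal (A v)) →
    ∀ s : ℂ, (i : ℝ) / 2 + 1 < s.re →
      HasProd (fun v : {v : HeightOneSpectrum (𝓞 M) // ¬ 𝔮 ≤ v.asIdeal} =>
        ((A v.1).map fun α => 1 - α * η v.1.asIdeal *
          (Ideal.absNorm v.1.asIdeal : ℂ) ^ (-s)).prod⁻¹) (Λ s)

end chars

section models

variable {M : Type} [Field M] (E : Type) [Field E] [Algebra M E] (R : Type) [CommRing R]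
  [Algebra (𝓞 E) R]

/-- the structure map of a ring `R` over `𝓞_E`, restricted to `𝓞_M` -/
noncomputable def str : 𝓞 M →+* R :=
  (algebraMap (𝓞 E) R).comp (algebraMap (𝓞 M) (𝓞 E))

/-- `R` is the ring of a model, over the ring of integers of `E`, of the function field of a variety over
`E` of dimension `e`, with trivial Albanese variety: for all finite fields `κ` and all homomorphisms
`φ : 𝓞_E → κ` with a kernel not dividing `𝔮` the number of the homomorphisms `R → κ` that
extend `φ` (the number of the points with coordinates in `κ` of the fibre of the model) differs from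
`|κ|^e` by at most `A |κ|^(e - 1)`. -/
def HasPoints (𝔮 : Ideal (𝓞 M)) (e : ℕ) (A : ℝ) : Prop :=
  ∀ (κ : Type) [Field κ] [Finite κ] (φ : 𝓞 E →+* κ),
    ¬ 𝔮.map (algebraMap (𝓞 M) (𝓞 E)) ≤ RingHom.ker φ →
    |(Nat.card {ψ : R →+* κ // ψ.comp (algebraMap (𝓞 E) R) = φ} : ℝ) - (Nat.card κ : ℝ) ^ e| ≤
      A * (Nat.card κ : ℝ) ^ ((e : ℝ) - 1)

/-- `Φ` is the function `Φ_i` of the problem for the variety `X` over the field of fractions of `R`: it is
the product over the closed points `y` of the spectrum of `R` which do not lie above the primes that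
divide `𝔮`, with the factors `P_{y,i}(q_y^{-s})⁻¹ = ∏_α (1 - α q_y^{-s})⁻¹`, `α` the eigenvalues of the
Frobenius at `y` on `H^i` of the fibre of `X`, for `Re s > (e + 1) + i/2` (here `e + 1` is the dimension
of the model), and it is analytic for `Re s > e + i/2`. -/
structure IsPhi {l : ℕ} (X : Set (MvPolynomial (Fin l) (𝓞 M))) (d i : ℕ) (𝔮 : Ideal (𝓞 M)) (e : ℕ)
    (Φ : ℂ → ℂ) : Prop where
  product : ∀ A : MaximalSpectrum R → Multiset ℂ,
    (∀ y : MaximalSpectrum R, ¬ 𝔮.map (str (M := M) E R) ≤ y.asIdeal →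
      IsFrobenius X d i (str (M := M) E R) y.asIdeal (A y)) →
    ∀ s : ℂ, (e : ℝ) + 1 + (i : ℝ) / 2 < s.re →
      HasProd (fun y : {y : MaximalSpectrum R // ¬ 𝔮.map (str (M := M) E R) ≤ y.asIdeal} =>
        ((A y.1).map fun α => 1 - α * (Nat.card (R ⧸ y.1.asIdeal) : ℂ) ^ (-s)).prod⁻¹) (Φ s)
  analytic : AnalyticOnNhd ℂ Φ {s : ℂ | (e : ℝ) + (i : ℝ) / 2 < s.re}

end models

open Pool.Agent.H440.CM Pool.Agent.H440.CO Pool.Agent.N784.CZ Pool.Agent.N784.HC
open Pool.Agent.Y767 (Mq Cls cls)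
open Pool.Agent.Y773.IQ (ofM' ofM'_pos ofM'_supp)
open Pool.Agent.Y773 (zz)
open Pool.Agent.N784.AD (pi1 T1 T1_cop Un)
open Pool.Agent.N833.CZ (bM bM_iff norm_Dn)

section aux

variable {M : Type} [Field M] [NumberField M]

/-- a Hecke character modulo `𝔪` gives one modulo every multiple of `𝔪` -/
lemma exists_Dn {𝔪 𝔮 : Ideal (𝓞 M)} (htop : 𝔮 ≠ ⊤) (hle : 𝔮 ≤ 𝔪) {n : (M →+* ℂ) → ℕ}
    {χ : Ideal (𝓞 M) →*₀ ℂ} (hχ : IsHeckeChar 𝔪 n χ) : ∃ F ∈ Dn n htop, ∀ y : Mq 𝔮,
      ((F y : ℂˣ) : ℂ) = χ (y : Ideal (𝓞 M)) := by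
  have hcop : ∀ y : Mq 𝔮, IsCoprime (y : Ideal (𝓞 M)) 𝔪 := by
    intro y
    have h1 : IsCoprime (y : Ideal (𝓞 M)) 𝔮 := Pool.Agent.Y767.Mq_cop y
    rw [Ideal.isCoprime_iff_sup_eq] at h1 ⊢
    rw [eq_top_iff, ← h1]
    exact sup_le_sup_left hle _
  have hne : ∀ y : Mq 𝔮, χ (y : Ideal (𝓞 M)) ≠ 0 := fun y =>
    (hχ.supp _ (Pool.Agent.Y767.Mq_ne_bot htop y)).mpr (hcop y)
  refine ⟨Pool.Agent.Y773.IQ.toM' χ hne, ?_, fun y => rfl⟩
  intro y
  ext
  change χ _ = _
  rw [Pool.Agent.N784.AD.pi1_coe, phT_coe]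
  exact hχ.ray y (Pool.Agent.Y773.IQ.ne_zero_of_cop htop (Pool.Agent.N784.AD.T1_cop y))
      (hle (Pool.Agent.N784.AD.T1_one y)) (Pool.Agent.N784.AD.T1_tp y)

/-- the characters of the ray class group as functions on all ideals -/
lemma bijOn_ofM (𝔮 : Ideal (𝓞 M)) (htop : 𝔮 ≠ ⊤) :
    Set.BijOn (ofM' htop) (Dn 0 htop) {η : Ideal (𝓞 M) →*₀ ℂ | IsHeckeChar 𝔮 0 η} := by
  refine ⟨?_, ?_, ?_⟩
  · intro F hF
    refine ⟨fun 𝔞 _ => ofM'_supp htop F 𝔞, ?_⟩
    intro x hx0 hx1 hxp
    have h1 : IsCoprime (Ideal.span {x}) 𝔮 := T1_cop (⟨x, hx1, hxp⟩ : T1 htop)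
    rw [ofM'_pos htop F h1]
    have h2 := congrArg (fun u : ℂˣ => (u : ℂ)) (hF ⟨x, hx1, hxp⟩)
    simp only [phT_coe] at h2
    exact h2
  · intro F _ F' _ h
    refine MonoidHom.ext fun y => ?_
    have h1 : IsCoprime (y : Ideal (𝓞 M)) 𝔮 := Pool.Agent.Y767.Mq_cop y
    have h2 := congrArg (fun f : Ideal (𝓞 M) →*₀ ℂ => f (y : Ideal (𝓞 M))) h
    simp only [ofM'_pos htop _ h1] at h2
    exact Units.ext h2
  · intro η hη
    obtain ⟨F, hF, hFη⟩ := exists_Dn htop le_rfl hη
    refine ⟨F, hF, ?_⟩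
    refine MonoidWithZeroHom.ext fun 𝔞 => ?_
    by_cases h0 : 𝔞 = ⊥
    · subst h0
      have h1 : (⊥ : Ideal (𝓞 M)) = 0 := rfl
      rw [h1, map_zero, map_zero]
    · by_cases hc : IsCoprime 𝔞 𝔮
      · rw [ofM'_pos htop F hc]
        exact hFη ⟨𝔞, hc⟩
      · have h1 : ofM' htop F 𝔞 = 0 := by
          by_contra h
          exact hc ((ofM'_supp htop F 𝔞).mp h)
        have h2 : η 𝔞 = 0 := by
          by_contra h
          exact hc ((hη.supp 𝔞 h0).mp h)
        rw [h1, h2]

omit [NumberField M] in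
lemma isFrobenius_iff {l d i : ℕ} {X : Set (MvPolynomial (Fin l) (𝓞 M))} {S : Type} [CommRing S]
    {ι : 𝓞 M →+* S} {y : Ideal S} {A : Multiset ℂ} :
    IsFrobenius X d i ι y A ↔ Fr X d i ι y A := Iff.rfl

/-- orders after a shift -/
lemma order_shift {G : ℂ → ℂ} (c z : ℂ) :
    analyticOrderAt (fun s => G (s - c)) z = analyticOrderAt G (z - c) := by
  have hg : AnalyticAt ℂ (fun z : ℂ => z - c) z := by fun_prop
  have hd : deriv (fun z : ℂ => z - c) z ≠ 0 := by simp
  exact analyticOrderAt_comp_of_deriv_ne_zero (f := G) hg hd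

/-- the primes as ideals and as places -/
noncomputable def placeEquiv (M : Type) [Field M] [NumberField M] :
    HeightOneSpectrum (𝓞 M) ≃ {𝔭 : Ideal (𝓞 M) // Prime 𝔭} where
  toFun v := ⟨v.asIdeal, v.prime⟩
  invFun 𝔭 := ⟨𝔭.1, Ideal.isPrime_of_prime 𝔭.2, 𝔭.2.ne_zero⟩
  left_inv _ := rfl
  right_inv _ := rfl

lemma cop_place {𝔮 : Ideal (𝓞 M)} (v : HeightOneSpectrum (𝓞 M)) :
    IsCoprime v.asIdeal 𝔮 ↔ ¬ 𝔮 ≤ v.asIdeal := by
  rw [Ideal.isCoprime_iff_sup_eq]
  constructor
  · intro h h2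
    rw [sup_eq_left.2 h2] at h
    exact v.isPrime.ne_top h
  · intro h
    by_contra h5
    apply h
    have hmax : v.asIdeal.IsMaximal := v.isMaximal
    rw [hmax.eq_of_le h5 le_sup_left]
    exact le_sup_right

end aux

/-- **Main theorem.** Let `M` be a number field and `i` a natural number.  There are `c > 0` and `C` with
the following property.  Let `X` be a projective variety over `M` with cohomology `H^i(X)` of CM type of
odd weight, with `N` characters (of nonzero infinity types) modulo `𝔪`, let `𝔮 ≠ (1)` be a multiple of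
`𝔪`, let `U` be the number of the residue classes modulo `𝔮` that contain units, and let `E` be the
narrow ray class field of `M` of modulus `𝔮`.  The twists `Λ_η` of the `L`-function of `H^i(X)` by the
characters `η` of the narrow ray class group modulo `𝔮` are entire.  The number of the `η` for which the
order of `Λ_η` at `(i + 1)/2` is at least `k` is at most `C N [E : M] U exp(-c k / N)`, for all `k ≥ 1`.
For every finitely generated ring `R` over the integers of `E`, of relative dimension `e ≥ 0`, with the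
numbers of points `|κ|^e + O(|κ|^(e - 1))`, the function `Φ_i` of `X` over the field of fractions of `R`
is analytic for `Re s > e + i/2`, and its order at `s = e + (i + 1)/2` (for `i = 1` at the point
`s = e + 1 = dim 𝒴` of the problem) is finite, the sum of the orders of the `Λ_η` at `(i + 1)/2`, and at
most `C N [E : M] (1 + log U)`. -/
theorem result (M : Type) [Field M] [NumberField M] (i : ℕ) : ∃ c C : ℝ, 0 < c ∧
    ∀ (l d N : ℕ) (X : Set (MvPolynomial (Fin l) (𝓞 M))) (𝔪 : Ideal (𝓞 M))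
      (n : Fin N → (M →+* ℂ) → ℕ) (χ : Fin N → Ideal (𝓞 M) →*₀ ℂ), IsCM X d i 𝔪 n χ →
    ∀ 𝔮 : Ideal (𝓞 M), 𝔮 ≠ ⊥ → 𝔮 ≠ ⊤ → 𝔪 ∣ 𝔮 →
    ∀ (E : Type) [Field E] [NumberField E] [Algebra M E] (art : Ideal (𝓞 M) → (𝓞 E ≃+* 𝓞 E)),
      IsRayClassField 𝔮 E art →
    {η : Ideal (𝓞 M) →*₀ ℂ | IsHeckeChar 𝔮 0 η}.Finite ∧
    ∃ Λ : (Ideal (𝓞 M) →*₀ ℂ) → ℂ → ℂ,
      (∀ η, IsHeckeChar 𝔮 0 η → IsTwist X d i 𝔮 η (Λ η)) ∧
      (∀ k : ℕ, 1 ≤ k → ({η : Ideal (𝓞 M) →*₀ ℂ | IsHeckeChar 𝔮 0 η ∧
          k ≤ analyticOrderNatAt (Λ η) (((i : ℂ) + 1) / 2)}.ncard : ℝ) ≤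
        C * N * Module.finrank M E * unitClasses 𝔮 * Real.exp (-(c * k / N))) ∧
      ∀ (R : Type) [CommRing R] [Algebra (𝓞 E) R] [Algebra.FiniteType (𝓞 E) R] (e : ℕ) (A : ℝ),
        HasPoints (M := M) E R 𝔮 e A →
      ∃ Φ : ℂ → ℂ, IsPhi E R X d i 𝔮 e Φ ∧
        analyticOrderAt Φ ((e : ℂ) + ((i : ℂ) + 1) / 2) ≠ ⊤ ∧
        analyticOrderNatAt Φ ((e : ℂ) + ((i : ℂ) + 1) / 2) =
          ∑ᶠ η ∈ {η : Ideal (𝓞 M) →*₀ ℂ | IsHeckeChar 𝔮 0 η},
            analyticOrderNatAt (Λ η) (((i : ℂ) + 1) / 2) ∧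
        (analyticOrderNatAt Φ ((e : ℂ) + ((i : ℂ) + 1) / 2) : ℝ) ≤
          C * N * Module.finrank M E * (1 + Real.log (unitClasses 𝔮)) := by
  classical
  obtain ⟨c, C, hc, -, H0⟩ := twist_core M i
  refine ⟨c, C, hc, ?_⟩
  intro l d N X 𝔪 n χ hCM 𝔮 hbot htop hdvd E _ _ _ art hE
  have hle : 𝔮 ≤ 𝔪 := Ideal.dvd_iff_le.mp hdvd
  set ι := algebraMap (𝓞 M) (𝓞 E) with hι
  have hE' : IsRCF 𝔮 E ι art :=
    ⟨hE.mul, hE.invariants, hE.kernel, hE.unramified, hE.frobenius⟩
  choose F hFD hF using fun j => exists_Dn htop hle (hCM.char j)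
  obtain ⟨Λ₀, hΛ1, hΛ2, hΛ3, hΛ4⟩ := H0 N n hCM.conj hCM.ne_zero hCM.hodge 𝔮 hbot htop F hFD
  obtain ⟨G, hGd, hGne, hGo, hGprod⟩ := hΛ4 E ι art hE'
  have hbij := bijOn_ofM 𝔮 htop
  have hfin0 : (Dn (0 : (M →+* ℂ) → ℕ) htop).Finite := (Dn_card_le (n := 0) hbot htop).1
  have hfinη : {η : Ideal (𝓞 M) →*₀ ℂ | IsHeckeChar 𝔮 0 η}.Finite := by
    rw [← hbij.image_eq]
    exact hfin0.image _
  refine ⟨hfinη, ?_⟩
  set g : (Ideal (𝓞 M) →*₀ ℂ) → (Mq 𝔮 →* ℂˣ) := Function.invFunOn (ofM' htop) (Dn 0 htop) with hg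
  have hginv : ∀ F₀ ∈ Dn (0 : (M →+* ℂ) → ℕ) htop, g (ofM' htop F₀) = F₀ := fun F₀ hF₀ =>
    hbij.injOn.leftInvOn_invFunOn hF₀
  set cc : ℂ := (i : ℂ) / 2 with hcc
  have hccr : cc = (((i : ℝ) / 2 : ℝ) : ℂ) := by rw [hcc]; push_cast; rfl
  have hccre : cc.re = (i : ℝ) / 2 := by rw [hccr, Complex.ofReal_re]
  have hmid : ((i : ℂ) + 1) / 2 - cc = 1 / 2 := by rw [hcc]; ring
  set Λ : (Ideal (𝓞 M) →*₀ ℂ) → ℂ → ℂ := fun η s => Λ₀ (g η) (s - cc) with hΛ
  have hord : ∀ F₀ ∈ Dn (0 : (M →+* ℂ) → ℕ) htop,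
      analyticOrderNatAt (Λ (ofM' htop F₀)) (((i : ℂ) + 1) / 2) =
        analyticOrderNatAt (Λ₀ F₀) (1 / 2) := by
    intro F₀ hF₀
    unfold analyticOrderNatAt
    rw [hΛ]
    simp only
    rw [order_shift, hginv F₀ hF₀, hmid]
  have hq2 : ∀ v : HeightOneSpectrum (𝓞 M), Nat.card (𝓞 M ⧸ v.asIdeal) =
      Ideal.absNorm v.asIdeal := quot_norm
  have hfinq : ∀ v : HeightOneSpectrum (𝓞 M), Finite (𝓞 M ⧸ v.asIdeal) := by
    intro v
    apply Nat.finite_of_card_ne_zero
    rw [hq2]
    have := two_le_norm v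
    intro h0
    rw [h0] at this
    norm_num at this
  have hUn : (Un 𝔮 : ℝ) = unitClasses 𝔮 := rfl
  have hcard : (Nat.card (Cls (pi1 htop)) : ℝ) = (Module.finrank M E : ℝ) := by
    have h7 := Pool.Agent.N134.CZ.t_deg M 𝔮 hbot htop E ι art hE'
    have h8 : 0 < Module.finrank ℚ M := Module.finrank_pos
    have h9 : Module.finrank ℚ M * Module.finrank M E = Module.finrank ℚ E :=
      Module.finrank_mul_finrank ℚ M E
    rw [← h9] at h7
    exact_mod_cast (Nat.eq_of_mul_eq_mul_left h8 h7).symm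
  refine ⟨Λ, ?_, ?_, ?_⟩
  · -- the twists
    intro η hη
    obtain ⟨F₀, hF₀, rfl⟩ := hbij.surjOn hη
    obtain ⟨h1, h2, h3⟩ := hΛ1 F₀ hF₀
    constructor
    · rw [hΛ]
      simp only
      rw [hginv F₀ hF₀]
      exact h1.comp (differentiable_id.sub_const _)
    · intro A hA s hs
      have hs' : 1 < (s - cc).re := by
        rw [Complex.sub_re, hccre]
        linarith
      have h4 := h3 _ hs'
      rw [← (placeEquiv M).hasProd_iff] at h4
      rw [hΛ]
      simp only
      rw [hginv F₀ hF₀]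
      have h5 := (hasProd_subtype_iff_of_mulSupport_subset
        (s := {v : HeightOneSpectrum (𝓞 M) | ¬ 𝔮 ≤ v.asIdeal}) ?_).mpr h4
      · refine h5.congr_fun fun v => ?_
        obtain ⟨v, hv⟩ := v
        simp only [Function.comp_apply]
        have hv' : ¬ 𝔪 ≤ v.asIdeal := fun h => hv (hle.trans h)
        have h6 := fr_unique hCM.le v.isMaximal (hfinq v) (isFrobenius_iff.mp (hA v hv))
          (isFrobenius_iff.mp (hCM.frobenius v hv'))
        rw [h6, Multiset.map_map, Finset.prod_inv_distrib]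
        congr 1
        refine Finset.prod_congr rfl fun j _ => ?_
        simp only [Function.comp_apply]
        congr 1
        have hcop := (cop_place v).mpr hv
        unfold zz
        change _ = ofM' htop (F₀ * F j) v.asIdeal * _
        rw [ofM'_pos htop F₀ hcop, ofM'_pos htop (F₀ * F j) hcop]
        change _ = ((F₀ ⟨v.asIdeal, hcop⟩ * F j ⟨v.asIdeal, hcop⟩ : ℂˣ) : ℂ) * _
        have hq0 : (Ideal.absNorm v.asIdeal : ℂ) ≠ 0 := by
          have := two_le_norm v
          intro h0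
          have h1 : (Ideal.absNorm v.asIdeal : ℝ) = 0 := by exact_mod_cast h0
          linarith
        rw [Units.val_mul, hF]
        change _ = _ * (Ideal.absNorm v.asIdeal : ℂ) ^ (-(s - cc))
        rw [neg_sub, sub_eq_add_neg, Complex.cpow_add _ _ hq0]
        ring
      · intro v hv hcon
        apply hv
        have hnc : ¬ IsCoprime v.asIdeal 𝔮 := fun h => (cop_place v).mp h hcon
        simp only [Function.comp_apply]
        refine Finset.prod_eq_one fun j _ => ?_
        have h6 : ofM' htop (F₀ * F j) v.asIdeal = 0 := by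
          by_contra h7
          exact hnc ((ofM'_supp htop _ _).1 h7)
        unfold zz
        change (1 - ofM' htop (F₀ * F j) v.asIdeal * _)⁻¹ = 1
        rw [h6, zero_mul, sub_zero, inv_one]
  · -- the tail
    intro k hk
    have h1 := hΛ2 k hk
    have h2 : {η : Ideal (𝓞 M) →*₀ ℂ | IsHeckeChar 𝔮 0 η ∧
        k ≤ analyticOrderNatAt (Λ η) (((i : ℂ) + 1) / 2)} =
        (ofM' htop) '' {η ∈ Dn (0 : (M →+* ℂ) → ℕ) htop |
          k ≤ analyticOrderNatAt (Λ₀ η) (1 / 2)} := by
      ext η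
      constructor
      · rintro ⟨h3, h4⟩
        obtain ⟨F₀, hF₀, rfl⟩ := hbij.surjOn h3
        rw [hord F₀ hF₀] at h4
        exact ⟨F₀, ⟨hF₀, h4⟩, rfl⟩
      · rintro ⟨F₀, ⟨hF₀, h4⟩, rfl⟩
        refine ⟨hbij.mapsTo hF₀, ?_⟩
        rw [hord F₀ hF₀]
        exact h4
    rw [h2, Set.InjOn.ncard_image (hbij.injOn.mono fun F₀ h => h.1), ← hUn, ← hcard]
    refine h1.trans (le_of_eq ?_)
    rw [mul_div_assoc]
    ring
  · -- the closed points
    intro R _ _ _ e A hR
    set P : HeightOneSpectrum (𝓞 E) → Prop := fun w => ¬ 𝔮.map ι ≤ w.asIdeal with hP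
    have hev : ∀ j w, ev ι htop (F j) w ≠ 0 → P w := by
      intro j w h
      rw [hP]
      simp only
      rw [← cop_iff]
      by_contra hcon
      apply h
      unfold ev
      rw [dif_neg hcon]
    have hev0 : ∀ j w, ¬ P w → ev ι htop (F j) w = 0 := by
      intro j w h
      by_contra hcon
      exact h (hev j w hcon)
    have hev1 : ∀ j w, ‖ev ι htop (F j) w‖ ≤ 1 := by
      intro j w
      unfold ev
      split_ifs with h
      · rw [norm_pow, norm_Dn hbot htop (hFD j), one_pow]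
      · rw [norm_zero]
        exact zero_le_one
    have hRj : ∀ j, Counts R (fun w => ev ι htop (F j) w ≠ 0) e A := by
      intro j w hw κ _ _ φ hφ
      refine hR κ φ ?_
      rw [hφ]
      exact hev j w hw
    choose Hj hHa hHp using fun j => closed_prod (hev1 j) (hRj j)
    set Φ : ℂ → ℂ := fun s => G (s - (cc + e)) * Complex.exp (∑ j, Hj j (s - cc)) with hΦ
    have hreΦ : ∀ s : ℂ, (s - cc).re = s.re - (i : ℝ) / 2 := fun s => by
      rw [Complex.sub_re, hccre]
    have hexpan : AnalyticOnNhd ℂ (fun s => Complex.exp (∑ j, Hj j (s - cc)))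
        {s : ℂ | (e : ℝ) + (i : ℝ) / 2 < s.re} := by
      intro s hs
      change (e : ℝ) + (i : ℝ) / 2 < s.re at hs
      have h1 : ∀ j, AnalyticAt ℂ (fun s => Hj j (s - cc)) s := by
        intro j
        have h2 : AnalyticAt ℂ (Hj j) (s - cc) := hHa j _ (by
          change (e : ℝ) < (s - cc).re
          rw [hreΦ]
          linarith)
        have h3 : AnalyticAt ℂ (fun z : ℂ => z - cc) s := by fun_prop
        exact AnalyticAt.fun_comp (f := fun z : ℂ => z - cc) h2 h3
      have h2 : AnalyticAt ℂ (fun s => ∑ j, Hj j (s - cc)) s :=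
        Finset.analyticAt_fun_sum _ fun j _ => h1 j
      exact h2.cexp
    have hGs : Differentiable ℂ (fun s => G (s - (cc + e))) :=
      hGd.comp (differentiable_id.sub_const _)
    have hs0 : (e : ℝ) + (i : ℝ) / 2 < ((e : ℂ) + ((i : ℂ) + 1) / 2).re := by
      have h1 : ((e : ℂ) + ((i : ℂ) + 1) / 2) = (((e : ℝ) + ((i : ℝ) + 1) / 2 : ℝ) : ℂ) := by
        push_cast
        rfl
      rw [h1, Complex.ofReal_re]
      linarith
    have hordΦ : analyticOrderAt Φ ((e : ℂ) + ((i : ℂ) + 1) / 2) = analyticOrderAt G (1 / 2) := by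
      have h1 : analyticOrderAt Φ ((e : ℂ) + ((i : ℂ) + 1) / 2) =
          analyticOrderAt (fun s => G (s - (cc + e))) ((e : ℂ) + ((i : ℂ) + 1) / 2) +
          analyticOrderAt (fun s => Complex.exp (∑ j, Hj j (s - cc)))
            ((e : ℂ) + ((i : ℂ) + 1) / 2) :=
        analyticOrderAt_mul (hGs.analyticAt _) (hexpan _ hs0)
      have h2 : analyticOrderAt (fun s => Complex.exp (∑ j, Hj j (s - cc)))
            ((e : ℂ) + ((i : ℂ) + 1) / 2) = 0 := by
        rw [(hexpan _ hs0).analyticOrderAt_eq_zero]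
        exact Complex.exp_ne_zero _
      rw [h1, h2, add_zero, order_shift]
      congr 1
      rw [hcc]
      ring
    have hGtop : analyticOrderAt G (1 / 2) ≠ ⊤ :=
      order_ne_top hGd (hGne 2 (by norm_num)) _
    have hsum : analyticOrderNatAt Φ ((e : ℂ) + ((i : ℂ) + 1) / 2) =
        ∑ᶠ η ∈ {η : Ideal (𝓞 M) →*₀ ℂ | IsHeckeChar 𝔮 0 η},
          analyticOrderNatAt (Λ η) (((i : ℂ) + 1) / 2) := by
      have h1 : analyticOrderNatAt Φ ((e : ℂ) + ((i : ℂ) + 1) / 2) =
          analyticOrderNatAt G (1 / 2) := by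
        unfold analyticOrderNatAt
        rw [hordΦ]
      rw [h1, hGo]
      exact finsum_mem_eq_of_bijOn (ofM' htop) hbij fun F₀ hF₀ => (hord F₀ hF₀).symm
    refine ⟨Φ, ⟨?_, ?_⟩, ?_, hsum, ?_⟩
    · -- the Euler product
      intro A' hA' s hs
      have hsc : (e : ℝ) + 1 < (s - cc).re := by
        rw [hreΦ]
        linarith
      choose gj hg1 hg2 using fun j => hHp j (s - cc) hsc
      have hprod1 : HasProd (fun w : HeightOneSpectrum (𝓞 E) =>
          ∏ j, (1 - ev ι htop (F j) w * (Ideal.absNorm w.asIdeal : ℂ) ^ (-((s - cc) - e)))⁻¹)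
          (∏ j, gj j) := hasProd_prod fun j _ => hg1 j
      have hse : 1 < ((s - cc) - e).re := by
        rw [Complex.sub_re, Complex.natCast_re]
        linarith
      have hGe : ∏ j, gj j = G (s - (cc + e)) := by
        have h1 := hprod1.unique (hGprod _ hse)
        rw [h1]
        congr 1
        ring
      have hprod2 := hasProd_prod (s := Finset.univ) fun j _ => hg2 j
      rw [Finset.prod_mul_distrib, hGe, ← Complex.exp_sum] at hprod2
      have h5 := (hasProd_subtype_iff_of_mulSupport_subset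
        (s := {y : MaximalSpectrum R | ¬ 𝔮.map (str (M := M) E R) ≤ y.asIdeal}) ?_).mpr hprod2
      · refine h5.congr_fun fun y => ?_
        obtain ⟨y, hy⟩ := y
        simp only [Function.comp_apply]
        -- the points below
        set w := bel E y with hw
        have hPw : ¬ 𝔮.map ι ≤ w.asIdeal := by
          intro h
          apply hy
          change 𝔮.map ((algebraMap (𝓞 E) R).comp (algebraMap (𝓞 M) (𝓞 E))) ≤ y.asIdeal
          rw [← Ideal.map_map, Ideal.map_le_iff_le_comap]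
          exact h
        have hcw : IsCoprime (bM ι w).1 𝔮 := (cop_iff ι w).mpr hPw
        have hpr : (bM ι w).1.IsPrime := Ideal.isPrime_of_prime (bM ι w).2
        set u : HeightOneSpectrum (𝓞 M) := ⟨(bM ι w).1, hpr, (bM ι w).2.ne_zero⟩ with hu
        have hum : ¬ 𝔪 ≤ u.asIdeal := by
          intro h
          rw [Ideal.isCoprime_iff_sup_eq, sup_eq_left.2 (hle.trans h)] at hcw
          exact hpr.ne_top hcw
        obtain ⟨hN, -⟩ := Pool.Agent.N400.CZ.t_split M 𝔮 hbot htop E ι art hE' (bM ι w).1 hpr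
          (bM ι w).2.ne_zero hcw
        have hNw := hN w ((bM_iff w (bM ι w)).mp rfl)
        set f := orderOf (cls (pi1 htop) ⟨(bM ι w).1, hcw⟩) with hf
        obtain ⟨hy1, hy2⟩ := card_quot (E := E) y
        have hNy : Nat.card (R ⧸ y.asIdeal) = Nat.card (𝓞 M ⧸ u.asIdeal) ^ (f * dg E y) := by
          rw [hy1, hNw, hq2, pow_mul]
        have hPu : u.asIdeal = y.asIdeal.comap (str (M := M) E R) := rfl
        have h6 := fr_lift (g := str (M := M) E R) hPu hNy
          (isFrobenius_iff.mp (hCM.frobenius u hum))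
        have hfy : Finite (R ⧸ y.asIdeal) := finite_quot E y
        have h7 := fr_unique hCM.le y.isMaximal hfy (isFrobenius_iff.mp (hA' y hy)) h6
        rw [h7, Multiset.map_map, Multiset.map_map, Finset.prod_inv_distrib]
        congr 1
        refine Finset.prod_congr rfl fun j _ => ?_
        simp only [Function.comp_apply]
        congr 1
        have hq0 : (Nat.card (R ⧸ y.asIdeal) : ℂ) ≠ 0 := by
          exact_mod_cast Nat.card_pos.ne'
        have h8 : ((Ideal.absNorm u.asIdeal : ℂ) ^ cc) ^ (f * dg E y) =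
            (Nat.card (R ⧸ y.asIdeal) : ℂ) ^ cc := by
          rw [hNy, hq2, Pool.Agent.Y773.natCast_pow_cpow]
        have h9 : ev ι htop (F j) w = χ j u.asIdeal ^ f := by
          unfold ev
          rw [dif_pos hcw, hF]
        rw [mul_pow, h8, h9, neg_sub, sub_eq_add_neg, Complex.cpow_add _ _ hq0, ← pow_mul]
        ring
      · intro y hy hcon
        apply hy
        have hnP : ¬ P (bel E y) := by
          intro h
          apply h
          have h1 := hcon
          change 𝔮.map ((algebraMap (𝓞 E) R).comp (algebraMap (𝓞 M) (𝓞 E))) ≤ y.asIdeal at h1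
          rw [← Ideal.map_map, Ideal.map_le_iff_le_comap] at h1
          exact h1
        refine Finset.prod_eq_one fun j _ => ?_
        have hd0 : dg E y ≠ 0 := by
          have := (card_quot (E := E) y).2
          omega
        rw [hev0 j _ hnP, zero_pow hd0, zero_mul, sub_zero, inv_one]
    · intro s hs
      exact (hGs.analyticAt s).mul (hexpan s hs)
    · rw [hordΦ]
      exact hGtop
    · rw [hsum, ← hUn, ← hcard]
      have h1 : (∑ᶠ η ∈ {η : Ideal (𝓞 M) →*₀ ℂ | IsHeckeChar 𝔮 0 η},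
          analyticOrderNatAt (Λ η) (((i : ℂ) + 1) / 2)) =
          ∑ᶠ F₀ ∈ Dn (0 : (M →+* ℂ) → ℕ) htop, analyticOrderNatAt (Λ₀ F₀) (1 / 2) :=
        (finsum_mem_eq_of_bijOn (ofM' htop) hbij fun F₀ hF₀ => (hord F₀ hF₀).symm).symm
      rw [h1]
      have h2 : ((∑ᶠ F₀ ∈ Dn (0 : (M →+* ℂ) → ℕ) htop,
          analyticOrderNatAt (Λ₀ F₀) (1 / 2) : ℕ) : ℝ) =
          ∑ᶠ F₀ ∈ Dn (0 : (M →+* ℂ) → ℕ) htop, (analyticOrderNatAt (Λ₀ F₀) (1 / 2) : ℝ) := by
        rw [finsum_mem_eq_finite_toFinset_sum _ hfin0, finsum_mem_eq_finite_toFinset_sum _ hfin0,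
          Nat.cast_sum]
      rw [h2]
      refine hΛ3.trans (le_of_eq ?_)
      ring

end Pool.Agent.Results.MP_9faec4_nt.CMCentralOrders
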