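import Pool.Agent.H440.CO.Frob
import Pool.Agent.H440.NV.Core

/-!
# Tate's `Φ_i` at and near the centre for all varieties with CM over an imaginary quadratic field, over
# ray class fields: a third of the pieces do not vanish

`M` is an imaginary quadratic field and `X` is a smooth projective variety over `M` whose cohomology
`H^i(X)` is of CM type over `M`, of odd weight: the eigenvalues of the Frobenius at almost all primes `v`
are the numbers `N(v)^(i/2) χ_j(v)`, `j ≤ N`, for unitary Hecke characters `χ_j` of `M` of nonzero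
infinity types.  For `i = 1` these are the varieties for which `Pic⁰ X` has complex multiplication over
`M` (Shimura, Taniyama), for example the elliptic curves with complex multiplication by orders of `M`,
which have `N = 2` and `χ_2 = conj χ_1`.

For an ideal `𝔮` of `M` let `E` be the ray class field of `M` of modulus `𝔮`.  The function `Φ_i` of `X`
over `E`, or over the field of fractions of a ring `R` of finite type over the integers of `E` with
`|κ|^e + O(|κ|^(e - 1))` points over the finite fields `κ`, is up to a factor without zeros the product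
of `N [E : M]` entire functions `Λ_{j,η}`, `j ≤ N`, `η` a character of the ray class group modulo `𝔮`:
its order at a point is the sum of their orders.  By the conjecture the order of `Λ_{j,η}` at the point
`(i + 1)/2 = 1`, for `i = 1`, is the dimension of a component of `Pic⁰ X (K) ⊗ ℂ`, on which the group
`Gal(E/M)` acts by `η` and the endomorphisms of `Pic⁰ X` act by a type.

We prove, without any hypothesis, that for every real `t` with `|t| ≤ B` and for every `j` at least the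
proportion `1/3 - ε` of the `η` have `Λ_{j,η}((i + 1)/2 + i t) ≠ 0`, for *all* moduli `𝔮` of norm at least
`X₀`, where `X₀` depends only on `M`, `i`, `B` and `ε`: it is the same for all varieties `X` (of every
dimension, with all `N` and all bad reductions that divide `𝔮`).  So at least the proportion `1/3 - ε` of
the `N [E : M]` factors of `Φ_i` do not vanish at the centre; the trivial case being `i = 0`, in which
there is no type (it is excluded here, and treated in the library result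
`MP_3b6604_nt.ThirdEveryModulus`).

The proof computes the mollified first and second moments of the values over all the *primitive* Hecke
characters of one type and one conductor, with the length `N(𝔣)^(1/2 - δ)` of the mollifier (Iwaniec and
Sarnak for Dirichlet characters), uniformly in the types of bounded exponents; see
`Pool.Agent.H440.NV.condN`, `Pool.Agent.H440.NV.thirdN`.
-/

set_option autoImplicit false

open NumberField IsDedekindDomain

namespace Pool.Agent.Results.MP_9faec4_nt.CMThirdOfPieces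

section variety

variable {M : Type} [Field M] {l : ℕ}

/-- The set `X` of homogeneous polynomials over `𝓞_M` in `l` variables gives a projective variety over
`M`.  For a field `κ` with `q` elements and a homomorphism `𝓞_M → κ` this is `(q - 1)` times the number
of the points of `X` with coordinates in `κ`: the number of the nonzero solutions of the equations. -/
noncomputable def cone (X : Set (MvPolynomial (Fin l) (𝓞 M))) {κ : Type} [Field κ]
    (φ : 𝓞 M →+* κ) : ℕ :=
  Nat.card {u : Fin l → κ // u ≠ 0 ∧ ∀ f ∈ X, MvPolynomial.eval₂ φ u f = 0}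

/-- Let `S` be a ring with a homomorphism `ι : 𝓞_M → S` and `y` a closed point of its spectrum with
a residue field of `q_y` elements.  The elements of the finite multiset `A` are the eigenvalues of the
geometric Frobenius at `y` on `H^i` of the fibre at `y` of `X`, for a variety `X` of dimension `d`: there
are finite multisets `β_k` of complex numbers of absolute value `q_y^{k/2}`, `k = 0, …, 2d`, with
`β_i = A`, such that for every finite extension `κ` of the residue field of `y`, of degree `r`, the number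
of the points of `X` with coordinates in `κ` is `∑ (-1)^k ∑_{z ∈ β_k} z^r`.  By the theorem of Deligne such
`β_k` exist if the fibre is smooth; they are unique. -/
def IsFrobenius (X : Set (MvPolynomial (Fin l) (𝓞 M))) (d i : ℕ) {S : Type} [CommRing S]
    (ι : 𝓞 M →+* S) (y : Ideal S) (A : Multiset ℂ) : Prop :=
  ∃ β : ℕ → Multiset ℂ, β i = A ∧
    (∀ k, ∀ z ∈ β k, ‖z‖ = (Nat.card (S ⧸ y) : ℝ) ^ ((k : ℝ) / 2)) ∧
    ∀ (κ : Type) [Field κ] [Finite κ] (φ : S →+* κ) (r : ℕ), RingHom.ker φ = y →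
      Nat.card κ = Nat.card (S ⧸ y) ^ r →
      (cone X (φ.comp ι) : ℂ) = ((Nat.card (S ⧸ y) : ℂ) ^ r - 1) *
        ∑ k ∈ Finset.range (2 * d + 1), (-1 : ℂ) ^ k * ((β k).map (fun z => z ^ r)).sum

end variety

section chars

variable {M : Type} [Field M] [NumberField M]

/-- `x` is totally positive -/
def TotPos (x : 𝓞 M) : Prop := ∀ τ : M →+* ℝ, 0 < τ (x : M)

/-- the archimedean part `∏_φ (φ(x)/|φ(x)|)^(n_φ)` of a unitary Hecke character -/
noncomputable def phase (n : (M →+* ℂ) → ℕ) (x : M) : ℂ :=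
  ∏ φ : M →+* ℂ, (φ x / (‖φ x‖ : ℂ)) ^ n φ

/-- `χ` is a (not necessarily primitive) unitary Hecke character modulo `𝔪` of infinity type `n` (with
arbitrary signs at the real places), as a function on the ideals, zero if not prime to `𝔪`; for `n = 0`
these are the characters of the narrow ray class group modulo `𝔪` -/
structure IsHeckeChar (𝔪 : Ideal (𝓞 M)) (n : (M →+* ℂ) → ℕ) (χ : Ideal (𝓞 M) →*₀ ℂ) : Prop where
  supp : ∀ 𝔞 : Ideal (𝓞 M), 𝔞 ≠ ⊥ → (χ 𝔞 ≠ 0 ↔ IsCoprime 𝔞 𝔪)
  ray : ∀ x : 𝓞 M, x ≠ 0 → x - 1 ∈ 𝔪 → TotPos x → χ (Ideal.span {x}) = phase n (x : M)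

/-- The cohomology `H^i(X)` of the projective variety `X` over `M`, of dimension `d`, is of CM type of odd
weight: at the primes `v` not dividing `𝔪` the eigenvalues of the Frobenius on it are
`N(v)^(i/2) χ_j(v)`, `j ≤ N`, for Hecke characters `χ_j` modulo `𝔪` of infinity types `n_j`.  These types are
nonzero, the exponents are at most `i` (the Hodge numbers of `H^i(X)` are zero outside of
`0 ≤ p, q ≤ i`), and one of the exponents of two conjugate embeddings is zero (the phases of `x` at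
conjugate embeddings are inverse to each other, so this is only a normalisation). -/
structure IsCM {l : ℕ} (X : Set (MvPolynomial (Fin l) (𝓞 M))) (d i : ℕ) (𝔪 : Ideal (𝓞 M)) {N : ℕ}
    (n : Fin N → (M →+* ℂ) → ℕ) (χ : Fin N → Ideal (𝓞 M) →*₀ ℂ) : Prop where
  le : i ≤ 2 * d
  conj : ∀ j, ∀ φ : M →+* ℂ, n j φ = 0 ∨ n j (ComplexEmbedding.conjugate φ) = 0
  ne_zero : ∀ j, n j ≠ 0
  hodge : ∀ j φ, n j φ ≤ i
  char : ∀ j, IsHeckeChar 𝔪 (n j) (χ j)
  frobenius : ∀ v : HeightOneSpectrum (𝓞 M), ¬ 𝔪 ≤ v.asIdeal →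
    IsFrobenius X d i (RingHom.id (𝓞 M)) v.asIdeal (Finset.univ.val.map
      (fun j => (Ideal.absNorm v.asIdeal : ℂ) ^ ((i : ℂ) / 2) * χ j v.asIdeal))

/-- `E` is the (narrow) ray class field of `M` of modulus `𝔮`: `art` is the Artin map (used only for
the ideals prime to `𝔮`), with values in the automorphisms of the ring of integers of `E`
(equivalently, of `E`), such that
* `art` is multiplicative,
* the integers of `M` are the invariants (so `E/M` is Galois and `art` is surjective onto its group),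
* the kernel consists of the ideals `𝔞` with `(a) 𝔞 = (b)` for some totally positive
  `a, b ≡ 1 mod 𝔮` (so the Galois group is the narrow ray class group modulo `𝔮`),
* `E/M` is unramified outside `𝔮`: the inertia group at every prime `w` of `E` not dividing `𝔮` is
  trivial,
* for every prime ideal `𝔭` not dividing `𝔮`, `art 𝔭` is the Frobenius automorphism
  `x ↦ x ^ N(𝔭)` at all primes `w` of `E` above `𝔭`. -/
structure IsRayClassField (𝔮 : Ideal (𝓞 M)) (E : Type) [Field E] [NumberField E] [Algebra M E]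
    (art : Ideal (𝓞 M) → (𝓞 E ≃+* 𝓞 E)) : Prop where
  mul : ∀ 𝔞 𝔟 : Ideal (𝓞 M), IsCoprime 𝔞 𝔮 → IsCoprime 𝔟 𝔮 → art (𝔞 * 𝔟) = art 𝔞 * art 𝔟
  invariants : ∀ x : 𝓞 E, (∀ 𝔞 : Ideal (𝓞 M), IsCoprime 𝔞 𝔮 → art 𝔞 x = x) ↔
    x ∈ (algebraMap (𝓞 M) (𝓞 E)).range
  kernel : ∀ 𝔞 : Ideal (𝓞 M), IsCoprime 𝔞 𝔮 → (art 𝔞 = 1 ↔ ∃ a b : 𝓞 M, a - 1 ∈ 𝔮 ∧ b - 1 ∈ 𝔮 ∧
    TotPos a ∧ TotPos b ∧ Ideal.span {a} * 𝔞 = Ideal.span {b})
  unramified : ∀ w : HeightOneSpectrum (𝓞 E), ¬ 𝔮.map (algebraMap (𝓞 M) (𝓞 E)) ≤ w.asIdeal →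
    ∀ 𝔞 : Ideal (𝓞 M), IsCoprime 𝔞 𝔮 → (∀ x, art 𝔞 x - x ∈ w.asIdeal) → art 𝔞 = 1
  frobenius : ∀ 𝔭 : Ideal (𝓞 M), 𝔭.IsPrime → IsCoprime 𝔭 𝔮 → ∀ w : HeightOneSpectrum (𝓞 E),
    𝔭.map (algebraMap (𝓞 M) (𝓞 E)) ≤ w.asIdeal → ∀ x : 𝓞 E, art 𝔭 x - x ^ Ideal.absNorm 𝔭 ∈ w.asIdeal

/-- `Λ` is the piece of the `L`-function of `H^i(X)` over `M` that belongs to the character `χ` (which is
one of the `χ_j`) and to the character `η` of the narrow ray class group modulo `𝔮`: an entire function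
with the Euler product over the primes `v` not dividing `𝔮`, with the factors
`(1 - N(v)^(i/2) χ(v) η(v) N(v)^(-s))⁻¹`, for `Re s > i/2 + 1`. -/
structure IsPiece (i : ℕ) (𝔮 : Ideal (𝓞 M)) (χ η : Ideal (𝓞 M) →*₀ ℂ) (Λ : ℂ → ℂ) : Prop where
  entire : Differentiable ℂ Λ
  product : ∀ s : ℂ, (i : ℝ) / 2 + 1 < s.re →
    HasProd (fun v : {v : HeightOneSpectrum (𝓞 M) // ¬ 𝔮 ≤ v.asIdeal} =>
      (1 - (Ideal.absNorm v.1.asIdeal : ℂ) ^ ((i : ℂ) / 2) * χ v.1.asIdeal * η v.1.asIdeal *
        (Ideal.absNorm v.1.asIdeal : ℂ) ^ (-s))⁻¹) (Λ s)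

/-- `Λ` is the `L`-function of `H^i(X)` over `M`, twisted by the character `η` of the narrow ray class
group modulo `𝔮`: an entire function with the Euler product over the primes `v` not dividing `𝔮`, with
the factors `∏_α (1 - α η(v) N(v)^(-s))⁻¹`, `α` the eigenvalues of the Frobenius, for `Re s > i/2 + 1`. -/
structure IsTwist {l : ℕ} (X : Set (MvPolynomial (Fin l) (𝓞 M))) (d i : ℕ) (𝔮 : Ideal (𝓞 M))
    (η : Ideal (𝓞 M) →*₀ ℂ) (Λ : ℂ → ℂ) : Prop where
  entire : Differentiable ℂ Λ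
  product : ∀ A : HeightOneSpectrum (𝓞 M) → Multiset ℂ,
    (∀ v : HeightOneSpectrum (𝓞 M), ¬ 𝔮 ≤ v.asIdeal →
      IsFrobenius X d i (RingHom.id (𝓞 M)) v.asIdeal (A v)) →
    ∀ s : ℂ, (i : ℝ) / 2 + 1 < s.re →
      HasProd (fun v : {v : HeightOneSpectrum (𝓞 M) // ¬ 𝔮 ≤ v.asIdeal} =>
        ((A v.1).map fun α => 1 - α * η v.1.asIdeal *
          (Ideal.absNorm v.1.asIdeal : ℂ) ^ (-s)).prod⁻¹) (Λ s)

end chars

section models

variable {M : Type} [Field M] (E : Type) [Field E] [Algebra M E] (R : Type) [CommRing R]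
  [Algebra (𝓞 E) R]

/-- the structure map of a ring `R` over `𝓞_E`, restricted to `𝓞_M` -/
noncomputable def str : 𝓞 M →+* R :=
  (algebraMap (𝓞 E) R).comp (algebraMap (𝓞 M) (𝓞 E))

/-- `R` is the ring of a model, over the ring of integers of `E`, of the function field of a variety over
`E` of dimension `e`, with trivial Albanese variety: for all finite fields `κ` and all homomorphisms
`φ : 𝓞_E → κ` with a kernel not dividing `𝔮` the number of the homomorphisms `R → κ` that
extend `φ` (the number of the points with coordinates in `κ` of the fibre of the model) differs from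
`|κ|^e` by at most `A |κ|^(e - 1)`. -/
def HasPoints (𝔮 : Ideal (𝓞 M)) (e : ℕ) (A : ℝ) : Prop :=
  ∀ (κ : Type) [Field κ] [Finite κ] (φ : 𝓞 E →+* κ),
    ¬ 𝔮.map (algebraMap (𝓞 M) (𝓞 E)) ≤ RingHom.ker φ →
    |(Nat.card {ψ : R →+* κ // ψ.comp (algebraMap (𝓞 E) R) = φ} : ℝ) - (Nat.card κ : ℝ) ^ e| ≤
      A * (Nat.card κ : ℝ) ^ ((e : ℝ) - 1)

/-- `Φ` is the function `Φ_i` of the problem for the variety `X` over the field of fractions of `R`: it is
the product over the closed points `y` of the spectrum of `R` which do not lie above the primes that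
divide `𝔮`, with the factors `P_{y,i}(q_y^{-s})⁻¹ = ∏_α (1 - α q_y^{-s})⁻¹`, `α` the eigenvalues of the
Frobenius at `y` on `H^i` of the fibre of `X`, for `Re s > (e + 1) + i/2` (here `e + 1` is the dimension
of the model), and it is analytic for `Re s > e + i/2`. -/
structure IsPhi {l : ℕ} (X : Set (MvPolynomial (Fin l) (𝓞 M))) (d i : ℕ) (𝔮 : Ideal (𝓞 M)) (e : ℕ)
    (Φ : ℂ → ℂ) : Prop where
  product : ∀ A : MaximalSpectrum R → Multiset ℂ,
    (∀ y : MaximalSpectrum R, ¬ 𝔮.map (str (M := M) E R) ≤ y.asIdeal →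
      IsFrobenius X d i (str (M := M) E R) y.asIdeal (A y)) →
    ∀ s : ℂ, (e : ℝ) + 1 + (i : ℝ) / 2 < s.re →
      HasProd (fun y : {y : MaximalSpectrum R // ¬ 𝔮.map (str (M := M) E R) ≤ y.asIdeal} =>
        ((A y.1).map fun α => 1 - α * (Nat.card (R ⧸ y.1.asIdeal) : ℂ) ^ (-s)).prod⁻¹) (Φ s)
  analytic : AnalyticOnNhd ℂ Φ {s : ℂ | (e : ℝ) + (i : ℝ) / 2 < s.re}

end models

open Pool.Agent.H440.CM Pool.Agent.H440.CO Pool.Agent.H440.NV Pool.Agent.N784.CZ Pool.Agent.N784.HC
open Pool.Agent.Y767 (Mq Cls cls)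
open Pool.Agent.Y773.IQ (ofM' ofM'_pos ofM'_supp)
open Pool.Agent.Y773 (zz)
open Pool.Agent.N784.AD (pi1 T1 T1_cop)
open Pool.Agent.N833.CZ (bM bM_iff norm_Dn)

section aux

variable {M : Type} [Field M] [NumberField M]

/-- a Hecke character modulo `𝔪` gives one modulo every multiple of `𝔪` -/
lemma exists_Dn {𝔪 𝔮 : Ideal (𝓞 M)} (htop : 𝔮 ≠ ⊤) (hle : 𝔮 ≤ 𝔪) {n : (M →+* ℂ) → ℕ}
    {χ : Ideal (𝓞 M) →*₀ ℂ} (hχ : IsHeckeChar 𝔪 n χ) : ∃ F ∈ Dn n htop, ∀ y : Mq 𝔮,
      ((F y : ℂˣ) : ℂ) = χ (y : Ideal (𝓞 M)) := by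
  have hcop : ∀ y : Mq 𝔮, IsCoprime (y : Ideal (𝓞 M)) 𝔪 := by
    intro y
    have h1 : IsCoprime (y : Ideal (𝓞 M)) 𝔮 := Pool.Agent.Y767.Mq_cop y
    rw [Ideal.isCoprime_iff_sup_eq] at h1 ⊢
    rw [eq_top_iff, ← h1]
    exact sup_le_sup_left hle _
  have hne : ∀ y : Mq 𝔮, χ (y : Ideal (𝓞 M)) ≠ 0 := fun y =>
    (hχ.supp _ (Pool.Agent.Y767.Mq_ne_bot htop y)).mpr (hcop y)
  refine ⟨Pool.Agent.Y773.IQ.toM' χ hne, ?_, fun y => rfl⟩
  intro y
  ext
  change χ _ = _
  rw [Pool.Agent.N784.AD.pi1_coe, phT_coe]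
  exact hχ.ray y (Pool.Agent.Y773.IQ.ne_zero_of_cop htop (Pool.Agent.N784.AD.T1_cop y))
      (hle (Pool.Agent.N784.AD.T1_one y)) (Pool.Agent.N784.AD.T1_tp y)

/-- the characters of the ray class group as functions on all ideals -/
lemma bijOn_ofM (𝔮 : Ideal (𝓞 M)) (htop : 𝔮 ≠ ⊤) :
    Set.BijOn (ofM' htop) (Dn 0 htop) {η : Ideal (𝓞 M) →*₀ ℂ | IsHeckeChar 𝔮 0 η} := by
  refine ⟨?_, ?_, ?_⟩
  · intro F hF
    refine ⟨fun 𝔞 _ => ofM'_supp htop F 𝔞, ?_⟩
    intro x hx0 hx1 hxp
    have h1 : IsCoprime (Ideal.span {x}) 𝔮 := T1_cop (⟨x, hx1, hxp⟩ : T1 htop)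
    rw [ofM'_pos htop F h1]
    have h2 := congrArg (fun u : ℂˣ => (u : ℂ)) (hF ⟨x, hx1, hxp⟩)
    simp only [phT_coe] at h2
    exact h2
  · intro F _ F' _ h
    refine MonoidHom.ext fun y => ?_
    have h1 : IsCoprime (y : Ideal (𝓞 M)) 𝔮 := Pool.Agent.Y767.Mq_cop y
    have h2 := congrArg (fun f : Ideal (𝓞 M) →*₀ ℂ => f (y : Ideal (𝓞 M))) h
    simp only [ofM'_pos htop _ h1] at h2
    exact Units.ext h2
  · intro η hη
    obtain ⟨F, hF, hFη⟩ := exists_Dn htop le_rfl hη
    refine ⟨F, hF, ?_⟩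
    refine MonoidWithZeroHom.ext fun 𝔞 => ?_
    by_cases h0 : 𝔞 = ⊥
    · subst h0
      have h1 : (⊥ : Ideal (𝓞 M)) = 0 := rfl
      rw [h1, map_zero, map_zero]
    · by_cases hc : IsCoprime 𝔞 𝔮
      · rw [ofM'_pos htop F hc]
        exact hFη ⟨𝔞, hc⟩
      · have h1 : ofM' htop F 𝔞 = 0 := by
          by_contra h
          exact hc ((ofM'_supp htop F 𝔞).mp h)
        have h2 : η 𝔞 = 0 := by
          by_contra h
          exact hc ((hη.supp 𝔞 h0).mp h)
        rw [h1, h2]

omit [NumberField M] in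
lemma isFrobenius_iff {l d i : ℕ} {X : Set (MvPolynomial (Fin l) (𝓞 M))} {S : Type} [CommRing S]
    {ι : 𝓞 M →+* S} {y : Ideal S} {A : Multiset ℂ} :
    IsFrobenius X d i ι y A ↔ Fr X d i ι y A := Iff.rfl

/-- orders after a shift -/
lemma order_shift {G : ℂ → ℂ} (c z : ℂ) :
    analyticOrderAt (fun s => G (s - c)) z = analyticOrderAt G (z - c) := by
  have hg : AnalyticAt ℂ (fun z : ℂ => z - c) z := by fun_prop
  have hd : deriv (fun z : ℂ => z - c) z ≠ 0 := by simp
  exact analyticOrderAt_comp_of_deriv_ne_zero (f := G) hg hd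

/-- the primes as ideals and as places -/
noncomputable def placeEquiv (M : Type) [Field M] [NumberField M] :
    HeightOneSpectrum (𝓞 M) ≃ {𝔭 : Ideal (𝓞 M) // Prime 𝔭} where
  toFun v := ⟨v.asIdeal, v.prime⟩
  invFun 𝔭 := ⟨𝔭.1, Ideal.isPrime_of_prime 𝔭.2, 𝔭.2.ne_zero⟩
  left_inv _ := rfl
  right_inv _ := rfl

lemma cop_place {𝔮 : Ideal (𝓞 M)} (v : HeightOneSpectrum (𝓞 M)) :
    IsCoprime v.asIdeal 𝔮 ↔ ¬ 𝔮 ≤ v.asIdeal := by
  rw [Ideal.isCoprime_iff_sup_eq]
  constructor
  · intro h h2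
    rw [sup_eq_left.2 h2] at h
    exact v.isPrime.ne_top h
  · intro h
    by_contra h5
    apply h
    have hmax : v.asIdeal.IsMaximal := v.isMaximal
    rw [hmax.eq_of_le h5 le_sup_left]
    exact le_sup_right

end aux

/-- **Main theorem.** Let `M` be an imaginary quadratic field, `i` a natural number, `B` and `ε > 0` real
numbers.  There is a number `X₀` with the following property.  Let `X` be a projective variety over `M`
with cohomology `H^i(X)` of CM type of odd weight, with `N` characters `χ_j` (of nonzero infinity types)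
modulo `𝔪`, let `𝔮` be a multiple of `𝔪` of norm at least `X₀`, and let `E` be the ray class field of `M`
of modulus `𝔮`.  There are `[E : M]` characters `η` of the ray class group modulo `𝔮`, and there are entire
functions `Λ_{j,η}`, the pieces that belong to `χ_j` and `η`, such that
* the product of the `Λ_{j,η}` over `j` is the `L`-function of `H^i(X)` twisted by `η`;
* for every `j` and every `t` with `|t| ≤ B`, at least `(1/3 - ε) [E : M]` of the characters `η` satisfy
  `Λ_{j,η}((i + 1)/2 + i t) ≠ 0`;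
* for every finitely generated ring `R` over the integers of `E`, of relative dimension `e ≥ 0`, with the
  numbers of points `|κ|^e + O(|κ|^(e - 1))`, the function `Φ_i` of `X` over the field of fractions of `R`
  is analytic for `Re s > e + i/2`, its order at every point `s` of this half plane is finite and is the
  sum of the orders of all the `Λ_{j,η}` at `s - e`; so the order at the point `e + (i + 1)/2` (for `i = 1`
  it is the point `s = e + 1 = dim 𝒴` of the problem) is a sum of `N [E : M]` natural numbers of which at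
  least `(1/3 - ε) N [E : M]` are zero. -/
theorem result (M : Type) [Field M] [NumberField M] [IsTotallyComplex M]
    (h2 : Module.finrank ℚ M = 2) (i : ℕ) (B ε : ℝ) (hε : 0 < ε) : ∃ X₀ : ℝ,
    ∀ (l d N : ℕ) (X : Set (MvPolynomial (Fin l) (𝓞 M))) (𝔪 : Ideal (𝓞 M))
      (n : Fin N → (M →+* ℂ) → ℕ) (χ : Fin N → Ideal (𝓞 M) →*₀ ℂ), IsCM X d i 𝔪 n χ →
    ∀ 𝔮 : Ideal (𝓞 M), 𝔮 ≠ ⊥ → 𝔪 ∣ 𝔮 → X₀ ≤ (Ideal.absNorm 𝔮 : ℝ) →
    ∀ (E : Type) [Field E] [NumberField E] [Algebra M E] (art : Ideal (𝓞 M) → (𝓞 E ≃+* 𝓞 E)),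
      IsRayClassField 𝔮 E art →
    {η : Ideal (𝓞 M) →*₀ ℂ | IsHeckeChar 𝔮 0 η}.Finite ∧
    {η : Ideal (𝓞 M) →*₀ ℂ | IsHeckeChar 𝔮 0 η}.ncard = Module.finrank M E ∧
    ∃ Λ : Fin N → (Ideal (𝓞 M) →*₀ ℂ) → ℂ → ℂ,
      (∀ j η, IsHeckeChar 𝔮 0 η → IsPiece i 𝔮 (χ j) η (Λ j η)) ∧
      (∀ η, IsHeckeChar 𝔮 0 η → IsTwist X d i 𝔮 η (fun s => ∏ j, Λ j η s)) ∧
      (∀ (j : Fin N) (t : ℝ), |t| ≤ B → (1 / 3 - ε) * Module.finrank M E ≤
        (({η : Ideal (𝓞 M) →*₀ ℂ | IsHeckeChar 𝔮 0 η ∧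
          Λ j η (((i : ℂ) + 1) / 2 + t * Complex.I) ≠ 0}.ncard : ℕ) : ℝ)) ∧
      ∀ (R : Type) [CommRing R] [Algebra (𝓞 E) R] [Algebra.FiniteType (𝓞 E) R] (e : ℕ) (A : ℝ),
        HasPoints (M := M) E R 𝔮 e A →
      ∃ Φ : ℂ → ℂ, IsPhi E R X d i 𝔮 e Φ ∧
        (∀ s : ℂ, (e : ℝ) + (i : ℝ) / 2 < s.re → analyticOrderAt Φ s ≠ ⊤ ∧
          analyticOrderNatAt Φ s = ∑ᶠ η ∈ {η : Ideal (𝓞 M) →*₀ ℂ | IsHeckeChar 𝔮 0 η},
            ∑ j, analyticOrderNatAt (Λ j η) (s - e)) ∧
        (∀ t : ℝ, |t| ≤ B → (1 / 3 - ε) * (N * Module.finrank M E) ≤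
          (({p : Fin N × (Ideal (𝓞 M) →*₀ ℂ) | IsHeckeChar 𝔮 0 p.2 ∧
            analyticOrderNatAt (Λ p.1 p.2) (((i : ℂ) + 1) / 2 + t * Complex.I) = 0}.ncard : ℕ) : ℝ)) := by
  classical
  obtain ⟨X₀, hX₀, H0⟩ := pieces M h2 i B ε hε
  refine ⟨X₀, ?_⟩
  intro l d N X 𝔪 n χ hCM 𝔮 hbot hdvd hX E _ _ _ art hE
  have htop : 𝔮 ≠ ⊤ := by
    rintro rfl
    rw [Ideal.absNorm_top, Nat.cast_one] at hX
    linarith
  have hle : 𝔮 ≤ 𝔪 := Ideal.dvd_iff_le.mp hdvd
  set ι := algebraMap (𝓞 M) (𝓞 E) with hι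
  have hE' : IsRCF 𝔮 E ι art :=
    ⟨hE.mul, hE.invariants, hE.kernel, hE.unramified, hE.frobenius⟩
  choose F hFD hF using fun j => exists_Dn htop hle (hCM.char j)
  obtain ⟨Λ₀, hΛ1, hΛ3, hΛ4⟩ := H0 N n hCM.conj hCM.ne_zero hCM.hodge 𝔮 hbot htop hX F hFD
  have hGprod := hΛ4 E ι art hE'
  have hbij := bijOn_ofM 𝔮 htop
  have hfin0 : (Dn (0 : (M →+* ℂ) → ℕ) htop).Finite := (Dn_card_le (n := 0) hbot htop).1
  have hfinη : {η : Ideal (𝓞 M) →*₀ ℂ | IsHeckeChar 𝔮 0 η}.Finite := by
    rw [← hbij.image_eq]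
    exact hfin0.image _
  have hcard : (Nat.card (Cls (pi1 htop))) = Module.finrank M E := by
    have h7 := Pool.Agent.N134.CZ.t_deg M 𝔮 hbot htop E ι art hE'
    have h8 : 0 < Module.finrank ℚ M := Module.finrank_pos
    have h9 : Module.finrank ℚ M * Module.finrank M E = Module.finrank ℚ E :=
      Module.finrank_mul_finrank ℚ M E
    rw [← h9] at h7
    exact (Nat.eq_of_mul_eq_mul_left h8 h7).symm
  have hone : (1 : Mq 𝔮 →* ℂˣ) ∈ Dn (0 : (M →+* ℂ) → ℕ) htop := by
    intro x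
    ext
    rw [phT_coe, ph_zero_type]
    rfl
  have hDcard : (Dn (0 : (M →+* ℂ) → ℕ) htop).ncard = Module.finrank M E := by
    rw [(Dn_card hbot htop hone).2, hcard]
  refine ⟨hfinη, ?_, ?_⟩
  · rw [← hbij.image_eq, hbij.injOn.ncard_image, hDcard]
  set g : (Ideal (𝓞 M) →*₀ ℂ) → (Mq 𝔮 →* ℂˣ) := Function.invFunOn (ofM' htop) (Dn 0 htop) with hg
  have hginv : ∀ F₀ ∈ Dn (0 : (M →+* ℂ) → ℕ) htop, g (ofM' htop F₀) = F₀ := fun F₀ hF₀ =>
    hbij.injOn.leftInvOn_invFunOn hF₀
  set cc : ℂ := (i : ℂ) / 2 with hcc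
  have hccr : cc = (((i : ℝ) / 2 : ℝ) : ℂ) := by rw [hcc]; push_cast; rfl
  have hccre : cc.re = (i : ℝ) / 2 := by rw [hccr, Complex.ofReal_re]
  have hmid : ∀ t : ℝ, ((i : ℂ) + 1) / 2 + t * Complex.I - cc = Pool.Agent.Y773.NV.hp t := by
    intro t
    rw [hcc]
    unfold Pool.Agent.Y773.NV.hp
    ring
  set Λ : Fin N → (Ideal (𝓞 M) →*₀ ℂ) → ℂ → ℂ := fun j η s => Λ₀ j (g η) (s - cc) with hΛ
  have hΛd : ∀ j, ∀ F₀ ∈ Dn (0 : (M →+* ℂ) → ℕ) htop, Differentiable ℂ (Λ j (ofM' htop F₀)) := by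
    intro j F₀ hF₀
    rw [hΛ]
    simp only
    rw [hginv F₀ hF₀]
    exact (hΛ1 j F₀ hF₀).1.comp (differentiable_id.sub_const _)
  have hord : ∀ j, ∀ F₀ ∈ Dn (0 : (M →+* ℂ) → ℕ) htop, ∀ z : ℂ,
      analyticOrderNatAt (Λ j (ofM' htop F₀)) z = analyticOrderNatAt (Λ₀ j F₀) (z - cc) := by
    intro j F₀ hF₀ z
    unfold analyticOrderNatAt
    rw [hΛ]
    simp only
    rw [order_shift, hginv F₀ hF₀]
  have hq2 : ∀ v : HeightOneSpectrum (𝓞 M), Nat.card (𝓞 M ⧸ v.asIdeal) =
      Ideal.absNorm v.asIdeal := quot_norm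
  have hfinq : ∀ v : HeightOneSpectrum (𝓞 M), Finite (𝓞 M ⧸ v.asIdeal) := by
    intro v
    apply Nat.finite_of_card_ne_zero
    rw [hq2]
    have := two_le_norm v
    intro h0
    rw [h0] at this
    norm_num at this
  -- the pieces
  have hpiece : ∀ j η, IsHeckeChar 𝔮 0 η → IsPiece i 𝔮 (χ j) η (Λ j η) := by
    intro j η hη
    obtain ⟨F₀, hF₀, rfl⟩ := hbij.surjOn hη
    obtain ⟨h1, h2, h3⟩ := hΛ1 j F₀ hF₀
    constructor
    · exact hΛd j F₀ hF₀
    · intro s hs
      have hs' : 1 < (s - cc).re := by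
        rw [Complex.sub_re, hccre]
        linarith
      have h4 := h3 _ hs'
      rw [← (placeEquiv M).hasProd_iff] at h4
      rw [hΛ]
      simp only
      rw [hginv F₀ hF₀]
      have h5 := (hasProd_subtype_iff_of_mulSupport_subset
        (s := {v : HeightOneSpectrum (𝓞 M) | ¬ 𝔮 ≤ v.asIdeal}) ?_).mpr h4
      · refine h5.congr_fun fun v => ?_
        obtain ⟨v, hv⟩ := v
        simp only [Function.comp_apply]
        congr 1
        have hcop := (cop_place v).mpr hv
        congr 1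
        unfold zz
        change _ = ofM' htop (F₀ * F j) v.asIdeal * _
        rw [ofM'_pos htop F₀ hcop, ofM'_pos htop (F₀ * F j) hcop]
        change _ = ((F₀ ⟨v.asIdeal, hcop⟩ * F j ⟨v.asIdeal, hcop⟩ : ℂˣ) : ℂ) * _
        have hq0 : (Ideal.absNorm v.asIdeal : ℂ) ≠ 0 := by
          have := two_le_norm v
          intro h0
          have h1 : (Ideal.absNorm v.asIdeal : ℝ) = 0 := by exact_mod_cast h0
          linarith
        rw [Units.val_mul, hF]
        change _ = _ * (Ideal.absNorm v.asIdeal : ℂ) ^ (-(s - cc))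
        rw [neg_sub, sub_eq_add_neg, Complex.cpow_add _ _ hq0]
        ring
      · intro v hv hcon
        apply hv
        have hnc : ¬ IsCoprime v.asIdeal 𝔮 := fun h => (cop_place v).mp h hcon
        simp only [Function.comp_apply]
        have h6 : ofM' htop (F₀ * F j) v.asIdeal = 0 := by
          by_contra h7
          exact hnc ((ofM'_supp htop _ _).1 h7)
        unfold zz
        change (1 - ofM' htop (F₀ * F j) v.asIdeal * _)⁻¹ = 1
        rw [h6, zero_mul, sub_zero, inv_one]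
  have hthird : ∀ (j : Fin N) (t : ℝ), |t| ≤ B → (1 / 3 - ε) * Module.finrank M E ≤
        (({η : Ideal (𝓞 M) →*₀ ℂ | IsHeckeChar 𝔮 0 η ∧
          Λ j η (((i : ℂ) + 1) / 2 + t * Complex.I) ≠ 0}.ncard : ℕ) : ℝ) := by
    intro j t ht
    have h1 := hΛ3 j t ht
    rw [hDcard] at h1
    refine h1.trans (le_of_eq ?_)
    congr 1
    have h3 : {η : Ideal (𝓞 M) →*₀ ℂ | IsHeckeChar 𝔮 0 η ∧
        Λ j η (((i : ℂ) + 1) / 2 + t * Complex.I) ≠ 0} =
        (ofM' htop) '' {η ∈ Dn (0 : (M →+* ℂ) → ℕ) htop | Λ₀ j η (Pool.Agent.Y773.NV.hp t) ≠ 0} := by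
      ext η
      constructor
      · rintro ⟨h4, h5⟩
        obtain ⟨F₀, hF₀, rfl⟩ := hbij.surjOn h4
        refine ⟨F₀, ⟨hF₀, ?_⟩, rfl⟩
        rw [hΛ] at h5
        simp only at h5
        rwa [hginv F₀ hF₀, hmid] at h5
      · rintro ⟨F₀, ⟨hF₀, h4⟩, rfl⟩
        refine ⟨hbij.mapsTo hF₀, ?_⟩
        rw [hΛ]
        simp only
        rwa [hginv F₀ hF₀, hmid]
    rw [h3, (hbij.injOn.mono fun F₀ h => h.1).ncard_image]
  refine ⟨Λ, hpiece, ?_, hthird, ?_⟩
  · -- the twists
    intro η hη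
    constructor
    · exact Differentiable.fun_finsetProd fun j _ => (hpiece j η hη).entire
    · intro A hA s hs
      have h1 := hasProd_prod (s := Finset.univ) fun j _ => (hpiece j η hη).product s hs
      refine h1.congr_fun fun v => ?_
      obtain ⟨v, hv⟩ := v
      have hv' : ¬ 𝔪 ≤ v.asIdeal := fun h => hv (hle.trans h)
      have h6 := fr_unique hCM.le v.isMaximal (hfinq v) (isFrobenius_iff.mp (hA v hv))
        (isFrobenius_iff.mp (hCM.frobenius v hv'))
      rw [h6, Multiset.map_map, Finset.prod_inv_distrib]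
      rfl
  · -- the closed points
    intro R _ _ _ e A hR
    set P : HeightOneSpectrum (𝓞 E) → Prop := fun w => ¬ 𝔮.map ι ≤ w.asIdeal with hP
    have hev : ∀ j w, ev ι htop (F j) w ≠ 0 → P w := by
      intro j w h
      rw [hP]
      simp only
      rw [← cop_iff]
      by_contra hcon
      apply h
      unfold ev
      rw [dif_neg hcon]
    have hev0 : ∀ j w, ¬ P w → ev ι htop (F j) w = 0 := by
      intro j w h
      by_contra hcon
      exact h (hev j w hcon)
    have hev1 : ∀ j w, ‖ev ι htop (F j) w‖ ≤ 1 := by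
      intro j w
      unfold ev
      split_ifs with h
      · rw [norm_pow, norm_Dn hbot htop (hFD j), one_pow]
      · rw [norm_zero]
        exact zero_le_one
    have hRj : ∀ j, Counts R (fun w => ev ι htop (F j) w ≠ 0) e A := by
      intro j w hw κ _ _ φ hφ
      refine hR κ φ ?_
      rw [hφ]
      exact hev j w hw
    choose Hj hHa hHp using fun j => closed_prod (hev1 j) (hRj j)
    have hS : ∀ F₀, F₀ ∈ hfin0.toFinset ↔ F₀ ∈ Dn (0 : (M →+* ℂ) → ℕ) htop := fun F₀ => by
      rw [Set.Finite.mem_toFinset]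
    set G : ℂ → ℂ := fun s => ∏ F₀ ∈ hfin0.toFinset, ∏ j, Λ₀ j F₀ s with hG
    have hGd : Differentiable ℂ G := Differentiable.fun_finsetProd fun F₀ hF₀ =>
      Differentiable.fun_finsetProd fun j _ => (hΛ1 j F₀ ((hS F₀).mp hF₀)).1
    have hΛt : ∀ j, ∀ F₀ ∈ Dn (0 : (M →+* ℂ) → ℕ) htop, ∀ z : ℂ,
        analyticOrderAt (Λ₀ j F₀) z ≠ ⊤ := fun j F₀ hF₀ z =>
      order_ne_top (hΛ1 j F₀ hF₀).1 ((hΛ1 j F₀ hF₀).2.1 2 (by norm_num)) z
    have hGne : G 2 ≠ 0 := by
      rw [hG]
      simp only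
      rw [Finset.prod_ne_zero_iff]
      intro F₀ hF₀
      rw [Finset.prod_ne_zero_iff]
      intro j _
      exact (hΛ1 j F₀ ((hS F₀).mp hF₀)).2.1 2 (by norm_num)
    have hne2 : ∀ F₀ ∈ Dn (0 : (M →+* ℂ) → ℕ) htop, (∏ j, Λ₀ j F₀ 2) ≠ 0 := by
      intro F₀ hF₀
      rw [Finset.prod_ne_zero_iff]
      intro j _
      exact (hΛ1 j F₀ hF₀).2.1 2 (by norm_num)
    have hGo : ∀ z, analyticOrderNatAt G z = ∑ F₀ ∈ hfin0.toFinset,
        ∑ j, analyticOrderNatAt (Λ₀ j F₀) z := by
      intro z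
      rw [hG, natOrder_prod hfin0.toFinset (fun F₀ s => ∏ j, Λ₀ j F₀ s) z
        (fun F₀ hF₀ => (Differentiable.fun_finsetProd fun j _ =>
          (hΛ1 j F₀ ((hS F₀).mp hF₀)).1).analyticAt z)
        (fun F₀ hF₀ => order_ne_top (Differentiable.fun_finsetProd fun j _ =>
          (hΛ1 j F₀ ((hS F₀).mp hF₀)).1) (hne2 F₀ ((hS F₀).mp hF₀)) z)]
      refine Finset.sum_congr rfl fun F₀ hF₀ => ?_
      exact natOrder_prod Finset.univ (fun j => Λ₀ j F₀) z
        (fun j _ => (hΛ1 j F₀ ((hS F₀).mp hF₀)).1.analyticAt z)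
        (fun j _ => hΛt j F₀ ((hS F₀).mp hF₀) z)
    have hGprod' : ∀ s : ℂ, 1 < s.re → HasProd (fun v : HeightOneSpectrum (𝓞 E) =>
          ∏ j, (1 - ev ι htop (F j) v * ((Ideal.absNorm v.asIdeal : ℕ) : ℂ) ^ (-s))⁻¹)
          (G s) := by
      intro s hs
      have h1 := hGprod s hs
      rw [finprod_mem_eq_finite_toFinset_prod _ hfin0] at h1
      exact h1
    set Φ : ℂ → ℂ := fun s => G (s - (cc + e)) * Complex.exp (∑ j, Hj j (s - cc)) with hΦ
    have hreΦ : ∀ s : ℂ, (s - cc).re = s.re - (i : ℝ) / 2 := fun s => by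
      rw [Complex.sub_re, hccre]
    have hexpan : AnalyticOnNhd ℂ (fun s => Complex.exp (∑ j, Hj j (s - cc)))
        {s : ℂ | (e : ℝ) + (i : ℝ) / 2 < s.re} := by
      intro s hs
      change (e : ℝ) + (i : ℝ) / 2 < s.re at hs
      have h1 : ∀ j, AnalyticAt ℂ (fun s => Hj j (s - cc)) s := by
        intro j
        have h2 : AnalyticAt ℂ (Hj j) (s - cc) := hHa j _ (by
          change (e : ℝ) < (s - cc).re
          rw [hreΦ]
          linarith)
        have h3 : AnalyticAt ℂ (fun z : ℂ => z - cc) s := by fun_prop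
        exact AnalyticAt.fun_comp (f := fun z : ℂ => z - cc) h2 h3
      have h2 : AnalyticAt ℂ (fun s => ∑ j, Hj j (s - cc)) s :=
        Finset.analyticAt_fun_sum _ fun j _ => h1 j
      exact h2.cexp
    have hGs : Differentiable ℂ (fun s => G (s - (cc + e))) :=
      hGd.comp (differentiable_id.sub_const _)
    have hordΦ : ∀ s : ℂ, (e : ℝ) + (i : ℝ) / 2 < s.re →
        analyticOrderAt Φ s = analyticOrderAt G (s - (cc + e)) := by
      intro s hs
      have h1 : analyticOrderAt Φ s = analyticOrderAt (fun s => G (s - (cc + e))) s +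
          analyticOrderAt (fun s => Complex.exp (∑ j, Hj j (s - cc))) s :=
        analyticOrderAt_mul (hGs.analyticAt _) (hexpan _ hs)
      have h2 : analyticOrderAt (fun s => Complex.exp (∑ j, Hj j (s - cc))) s = 0 := by
        rw [(hexpan _ hs).analyticOrderAt_eq_zero]
        exact Complex.exp_ne_zero _
      rw [h1, h2, add_zero, order_shift]
    refine ⟨Φ, ⟨?_, ?_⟩, ?_, ?_⟩
    · -- the Euler product
      intro A' hA' s hs
      have hsc : (e : ℝ) + 1 < (s - cc).re := by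
        rw [hreΦ]
        linarith
      choose gj hg1 hg2 using fun j => hHp j (s - cc) hsc
      have hprod1 : HasProd (fun w : HeightOneSpectrum (𝓞 E) =>
          ∏ j, (1 - ev ι htop (F j) w * (Ideal.absNorm w.asIdeal : ℂ) ^ (-((s - cc) - e)))⁻¹)
          (∏ j, gj j) := hasProd_prod fun j _ => hg1 j
      have hse : 1 < ((s - cc) - e).re := by
        rw [Complex.sub_re, Complex.natCast_re]
        linarith
      have hGe : ∏ j, gj j = G (s - (cc + e)) := by
        have h1 := hprod1.unique (hGprod' _ hse)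
        rw [h1]
        congr 1
        ring
      have hprod2 := hasProd_prod (s := Finset.univ) fun j _ => hg2 j
      rw [Finset.prod_mul_distrib, hGe, ← Complex.exp_sum] at hprod2
      have h5 := (hasProd_subtype_iff_of_mulSupport_subset
        (s := {y : MaximalSpectrum R | ¬ 𝔮.map (str (M := M) E R) ≤ y.asIdeal}) ?_).mpr hprod2
      · refine h5.congr_fun fun y => ?_
        obtain ⟨y, hy⟩ := y
        simp only [Function.comp_apply]
        -- the points below
        set w := bel E y with hw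
        have hPw : ¬ 𝔮.map ι ≤ w.asIdeal := by
          intro h
          apply hy
          change 𝔮.map ((algebraMap (𝓞 E) R).comp (algebraMap (𝓞 M) (𝓞 E))) ≤ y.asIdeal
          rw [← Ideal.map_map, Ideal.map_le_iff_le_comap]
          exact h
        have hcw : IsCoprime (bM ι w).1 𝔮 := (cop_iff ι w).mpr hPw
        have hpr : (bM ι w).1.IsPrime := Ideal.isPrime_of_prime (bM ι w).2
        set u : HeightOneSpectrum (𝓞 M) := ⟨(bM ι w).1, hpr, (bM ι w).2.ne_zero⟩ with hu
        have hum : ¬ 𝔪 ≤ u.asIdeal := by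
          intro h
          rw [Ideal.isCoprime_iff_sup_eq, sup_eq_left.2 (hle.trans h)] at hcw
          exact hpr.ne_top hcw
        obtain ⟨hN, -⟩ := Pool.Agent.N400.CZ.t_split M 𝔮 hbot htop E ι art hE' (bM ι w).1 hpr
          (bM ι w).2.ne_zero hcw
        have hNw := hN w ((bM_iff w (bM ι w)).mp rfl)
        set f := orderOf (cls (pi1 htop) ⟨(bM ι w).1, hcw⟩) with hf
        obtain ⟨hy1, hy2⟩ := card_quot (E := E) y
        have hNy : Nat.card (R ⧸ y.asIdeal) = Nat.card (𝓞 M ⧸ u.asIdeal) ^ (f * dg E y) := by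
          rw [hy1, hNw, hq2, pow_mul]
        have hPu : u.asIdeal = y.asIdeal.comap (str (M := M) E R) := rfl
        have h6 := fr_lift (g := str (M := M) E R) hPu hNy
          (isFrobenius_iff.mp (hCM.frobenius u hum))
        have hfy : Finite (R ⧸ y.asIdeal) := finite_quot E y
        have h7 := fr_unique hCM.le y.isMaximal hfy (isFrobenius_iff.mp (hA' y hy)) h6
        rw [h7, Multiset.map_map, Multiset.map_map, Finset.prod_inv_distrib]
        congr 1
        refine Finset.prod_congr rfl fun j _ => ?_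
        simp only [Function.comp_apply]
        congr 1
        have hq0 : (Nat.card (R ⧸ y.asIdeal) : ℂ) ≠ 0 := by
          exact_mod_cast Nat.card_pos.ne'
        have h8 : ((Ideal.absNorm u.asIdeal : ℂ) ^ cc) ^ (f * dg E y) =
            (Nat.card (R ⧸ y.asIdeal) : ℂ) ^ cc := by
          rw [hNy, hq2, Pool.Agent.Y773.natCast_pow_cpow]
        have h9 : ev ι htop (F j) w = χ j u.asIdeal ^ f := by
          unfold ev
          rw [dif_pos hcw, hF]
        rw [mul_pow, h8, h9, neg_sub, sub_eq_add_neg, Complex.cpow_add _ _ hq0, ← pow_mul]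
        ring
      · intro y hy hcon
        apply hy
        have hnP : ¬ P (bel E y) := by
          intro h
          apply h
          have h1 := hcon
          change 𝔮.map ((algebraMap (𝓞 E) R).comp (algebraMap (𝓞 M) (𝓞 E))) ≤ y.asIdeal at h1
          rw [← Ideal.map_map, Ideal.map_le_iff_le_comap] at h1
          exact h1
        refine Finset.prod_eq_one fun j _ => ?_
        have hd0 : dg E y ≠ 0 := by
          have := (card_quot (E := E) y).2
          omega
        rw [hev0 j _ hnP, zero_pow hd0, zero_mul, sub_zero, inv_one]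
    · intro s hs
      exact (hGs.analyticAt s).mul (hexpan s hs)
    · intro s hs
      constructor
      · rw [hordΦ s hs]
        exact order_ne_top hGd hGne _
      · have h1 : analyticOrderNatAt Φ s = analyticOrderNatAt G (s - (cc + e)) := by
          unfold analyticOrderNatAt
          rw [hordΦ s hs]
        rw [h1, hGo, ← finsum_mem_eq_finite_toFinset_sum _ hfin0]
        refine finsum_mem_eq_of_bijOn (ofM' htop) hbij fun F₀ hF₀ => ?_
        refine Finset.sum_congr rfl fun j _ => ?_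
        rw [hord j F₀ hF₀]
        congr 1
        ring
    · intro t ht
      have h1 := Finset.sum_le_sum fun j (_ : j ∈ (Finset.univ : Finset (Fin N))) => hthird j t ht
      rw [Finset.sum_const, Finset.card_univ, Fintype.card_fin, nsmul_eq_mul] at h1
      set z : ℂ := ((i : ℂ) + 1) / 2 + t * Complex.I with hz
      have h3 : ∀ j : Fin N, {η : Ideal (𝓞 M) →*₀ ℂ | IsHeckeChar 𝔮 0 η ∧ Λ j η z ≠ 0} =
          ((hfinη.toFinset.filter fun η => Λ j η z ≠ 0 : Finset _) : Set _) := by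
        intro j
        ext η
        simp
      have h4 : {p : Fin N × (Ideal (𝓞 M) →*₀ ℂ) | IsHeckeChar 𝔮 0 p.2 ∧
          analyticOrderNatAt (Λ p.1 p.2) z = 0} =
          (((Finset.univ ×ˢ hfinη.toFinset).filter fun p => Λ p.1 p.2 z ≠ 0 : Finset _) :
            Set _) := by
        ext ⟨j, η⟩
        simp only [Set.mem_ofPred_eq, Finset.coe_filter, Finset.mem_product, Finset.mem_univ,
          true_and, Set.Finite.mem_toFinset]
        refine and_congr_right fun hη => ?_
        obtain ⟨F₀, hF₀, rfl⟩ := hbij.surjOn hη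
        have h5 : analyticOrderAt (Λ j (ofM' htop F₀)) z ≠ ⊤ := by
          have h6 := hΛt j F₀ hF₀ (z - cc)
          rw [hΛ]
          simp only
          rw [order_shift, hginv F₀ hF₀]
          exact h6
        have h6 := ((hΛd j F₀ hF₀).analyticAt z).analyticOrderAt_eq_zero
        rw [← h6]
        unfold analyticOrderNatAt
        rw [ENat.toNat_eq_zero]
        simp [h5]
      have h5 : ((Finset.univ ×ˢ hfinη.toFinset).filter fun p : Fin N × (Ideal (𝓞 M) →*₀ ℂ) =>
          Λ p.1 p.2 z ≠ 0).card =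
          ∑ j : Fin N, (hfinη.toFinset.filter fun η => Λ j η z ≠ 0).card := by
        rw [Finset.card_filter, Finset.sum_product]
        refine Finset.sum_congr rfl fun j _ => ?_
        rw [Finset.card_filter]
      rw [h4, Set.ncard_coe_finset, h5, Nat.cast_sum]
      have h6 : ∀ j : Fin N, (({η : Ideal (𝓞 M) →*₀ ℂ | IsHeckeChar 𝔮 0 η ∧
          Λ j η z ≠ 0}.ncard : ℕ) : ℝ) =
          ((hfinη.toFinset.filter fun η => Λ j η z ≠ 0).card : ℝ) := by
        intro j
        rw [h3, Set.ncard_coe_finset]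
      simp_rw [h6] at h1
      refine le_trans (le_of_eq ?_) h1
      ring

end Pool.Agent.Results.MP_9faec4_nt.CMThirdOfPieces
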