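import Pool.Agent.H427.QR.LfI
import Pool.Agent.H427.QR.Mod
import Pool.Agent.H427.CL.Mean
import Pool.Agent.H427.QK.Den
import Pool.Graph.R_seed8.Y948.CQ.C2

/-!
# Tate's conjecture for the quartic twists `y² = x³ + 2 D g² x`, `g ∣ D`, over all the fields
# `F = ℚ(i)(√d : d ∈ T)`, `T` a set of divisors of `D`, and over function fields of any transcendence
# degree over `F`: L-functions, bounds and mean values of the ranks for all `D`, the full conjecture
# for an exact proportion of the `D`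

`D` runs over ALL the squarefree Gaussian integers `≡ 1` modulo `2 + 2i` (every squarefree Gaussian
integer prime to `2` has exactly one associate of this form), ordered by the norm; all divisors of `D`
are normalized in the same way.  For a divisor `g` of `D` let `E_{D,g}` be the elliptic curve
`y² = x³ + 2 D g² x`; these are `2^{ω(D)}` curves, the quadratic twists of each other by the divisors
of `D`.  For a set `T` of divisors of `D` let `F_T = ℚ(i)(√d : d ∈ T)`; its degree is a power of two,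
and it is `2^{|T| + 1}` if `T` is a set of primes.

Let `2 ^ r`, `r = r(D)`, be the order of the kernel of a matrix over `𝔽₂` made from the quadratic
residue symbols of the prime factors of `D`.  For every `D`, all the `g` and all the `T`, `F = F_T`:
* the Euler product `Φ₁(s)` of `E_{D,g}` over the model `Spec 𝓞[1 / (2D)]` of `F` extends to an
  entire function;
* `E_{D,g}(F)` is finitely generated of rank at most `r(D) [F : ℚ]`;
* let `R` be a ring of finite type over `𝓞 = 𝓞_F` with `|κ|^e + O(|κ|^(e-1))` points in the finite fields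
  `κ` over `𝓞[1 / (2D)]` (for instance `𝓞[t₁, …, t_e]`), and `K` its field of fractions; then the function
  `Φ₁` of `E_{D,g}` over `K` (the product over the closed points of `Spec R[1 / (2D)]`) is equal to
  `Φ₁(s - e)` (for the field `F`) times a function that is analytic and has no zeros for
  `Re s > e + 1/2`; so it is analytic there and its order at the point `s = e + 1`, the dimension of the
  model, is the order of `Φ₁` for the field `F` at `s = 1`;
* if `K` is contained in a field of rational functions over `F` in any number of variables, then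
  `E_{D,g}(K)` is isomorphic to `E_{D,g}(F)`; so Tate's conjectures for `E_{D,g}` over `K` and over `F`
  are equivalent;
* if `r(D) = 0`, then `Φ₁(1) ≠ 0` and `E_{D,g}(F)` is finite, so both sides of Tate's conjecture over
  `F`, and over these `K`, are `0`, and the 2-primary part of `Ш(E_{D,g}/F)` is finite and killed by
  `[F : ℚ(i)]`;
* if `r(D) ≠ 0`, then already over `ℚ(i)` it fails that `E_{D,g}` has only finitely many points and
  `Ш[2] = 0`.

The natural density of the `D` with `r(D) = m` is exactly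
`law m = ∏_{i ≥ 0} (1 - 2^{-(2i+1)}) ∏_{i = 1}^{m} 1 / (2^i - 1)`, and the mean values of the functions of
`r(D)` of polynomial growth converge to those of the law.  The proportion of the `D` with `r(D) = 0`,
for which Tate's conjecture holds with both sides `0` for all the `g`, `T` and `K` simultaneously, is
`law 0 = 0.4194...`; for every choice of `g = g(D)` and `T = T(D)` the mean value of
`rank E_{D,g}(F_T) / [F_T : ℚ]` over the `D` of norm at most `X` is less than `0.765` for all large `X`,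
and that of its `k`-th power is at most `∑ m ^ k law m + o(1)`, for every `k`.
-/

set_option autoImplicit false

namespace Pool.Agent.Results.MP_9faec4_nt.QuarticTwistsGenusFields

open NumberField IsDedekindDomain

section defs

variable {F : Type} [Field F] [NumberField F]

/-- The curve `y² = x³ + 2 D g² x` over `F`; the Gaussian integers are embedded in `F` by `ι`. -/
noncomputable def curve (ι : GaussianInt →+* 𝓞 F) (D g : GaussianInt) : WeierstrassCurve F :=
  ⟨0, 0, 0, ((ι (2 * (D * g ^ 2)) : 𝓞 F) : F), 0⟩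

/-- `F` is the field `ℚ(i)(√d : d ∈ T)`. -/
def IsGenerated (ι : GaussianInt →+* 𝓞 F) (T : Finset GaussianInt) : Prop :=
  ∃ r : GaussianInt → 𝓞 F, (∀ d ∈ T, r d ^ 2 = ι d) ∧
    ∀ L : Subfield F, (∀ g : GaussianInt, (ι g : F) ∈ L) → (∀ d ∈ T, (r d : F) ∈ L) → L = ⊤

/-- The trace of the Frobenius at the prime `v` on `H¹` of the curve `y² = x³ + a x`: the number of the
elements of the residue field minus the number of the solutions over the residue field. -/
noncomputable def trace (v : HeightOneSpectrum (𝓞 F)) (a : 𝓞 F) : ℤ :=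
  (Ideal.absNorm v.asIdeal : ℤ) - (Nat.card {p : (𝓞 F ⧸ v.asIdeal) × (𝓞 F ⧸ v.asIdeal) //
    p.2 ^ 2 = p.1 ^ 3 + Ideal.Quotient.mk v.asIdeal a * p.1} : ℤ)

/-- `Φ` is the function `Φ₁` of the curve `y² = x³ + 2 D g² x` over `F`, for the model over the
open subset of the spectrum of the ring of integers of `F` where `2 D` is invertible: it is the product
of the numbers `P_v(q_v^{-s})⁻¹`, `P_v(T) = 1 - a_v T + q_v T²`, over the closed points `v`, for
`Re s > 3 / 2`. -/
def IsPhi (ι : GaussianInt →+* 𝓞 F) (D g : GaussianInt) (Φ : ℂ → ℂ) : Prop :=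
  ∀ s : ℂ, 3 / 2 < s.re → HasProd (fun v : {v : HeightOneSpectrum (𝓞 F) //
    ι (2 * D) ∉ v.asIdeal} =>
      (1 - (trace v.1 (ι (2 * (D * g ^ 2))) : ℂ) * (Ideal.absNorm v.1.asIdeal : ℂ) ^ (-s) +
        (Ideal.absNorm v.1.asIdeal : ℂ) ^ (1 - 2 * s))⁻¹) (Φ s)

open scoped Classical in
/-- The rank of `E(F)`. -/
noncomputable def rank (E : WeierstrassCurve F) : ℕ := Module.finrank ℤ E.toAffine.Point

/-- The 2-primary part of `Ш` is finite and killed by `[F : ℚ] / 2 = [F : ℚ(i)]`. -/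
def ShaBound (E : WeierstrassCurve F) : Prop :=
  Finite (AddCommGroup.primaryComponent (Pool.Agent.TH841.NF.D.Sha E) 2) ∧
    ∀ (k : ℕ) (x : Pool.Agent.TH841.NF.D.Sha E), 2 ^ k • x = 0 →
      (Module.finrank ℚ F / 2) • x = 0

/-- The trace of the Frobenius at the closed point `y` of the spectrum of `R` on `H¹` of the curve
`y² = x³ + a x`: the number of the elements of the residue field minus the number of the solutions over
the residue field. -/
noncomputable def traceAt {R : Type} [CommRing R] (y : Ideal R) (a : R) : ℤ :=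
  (Nat.card (R ⧸ y) : ℤ) - (Nat.card {p : (R ⧸ y) × (R ⧸ y) //
    p.2 ^ 2 = p.1 ^ 3 + Ideal.Quotient.mk y a * p.1} : ℤ)

/-- The ring `R` over `𝓞 = 𝓞_F` has `|κ|^e + O(|κ|^(e - 1))` points in the finite fields `κ` over
`𝓞[1 / M]`: for all the finite fields `κ` and all the homomorphisms `φ : 𝓞 → κ` with `φ(M) ≠ 0` the
number of the homomorphisms `R → κ` that extend `φ` differs from `|κ|^e` by at most `A |κ|^(e - 1)`. -/
def HasPoints (M : 𝓞 F) (R : Type) [CommRing R] [Algebra (𝓞 F) R] (e : ℕ) : Prop :=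
  ∃ A : ℝ, ∀ (κ : Type) [Field κ] [Finite κ] (φ : 𝓞 F →+* κ), φ M ≠ 0 →
    |(Nat.card {ψ : R →+* κ // ψ.comp (algebraMap (𝓞 F) R) = φ} : ℝ) - (Nat.card κ : ℝ) ^ e| ≤
      A * (Nat.card κ : ℝ) ^ ((e : ℝ) - 1)

/-- `Φ` is the function `Φ₁` of the curve `y² = x³ + 2 D g² x` over the field of fractions of `R`,
for the model over the open subset of the spectrum of `R` where `2 D` is invertible: it is the product
of the numbers `P_y(q_y^{-s})⁻¹`, `P_y(T) = 1 - a_y T + q_y T²`, over the closed points `y`, for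
`Re s > (e + 1) + 1 / 2` (here `e + 1` is the dimension of the model). -/
def IsPhiModel (ι : GaussianInt →+* 𝓞 F) (D g : GaussianInt) (R : Type) [CommRing R]
    [Algebra (𝓞 F) R] (e : ℕ) (Φ : ℂ → ℂ) : Prop :=
  ∀ s : ℂ, (e : ℝ) + 3 / 2 < s.re → HasProd (fun y : {y : MaximalSpectrum R //
    algebraMap (𝓞 F) R (ι (2 * D)) ∉ y.asIdeal} =>
      (1 - (traceAt y.1.asIdeal (algebraMap (𝓞 F) R (ι (2 * (D * g ^ 2)))) : ℂ) *
          (Nat.card (R ⧸ y.1.asIdeal) : ℂ) ^ (-s) +
        (Nat.card (R ⧸ y.1.asIdeal) : ℂ) ^ (1 - 2 * s))⁻¹) (Φ s)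

/-- The field `K`, for instance the field of fractions of the ring `R` over `𝓞_F`, is contained in the
field of rational functions in `m` variables over `F`, for some `m`. -/
def IsUnirational (F R K : Type) [Field F] [NumberField F] [CommRing R] [Algebra (𝓞 F) R] [Field K]
    [Algebra R K] : Prop :=
  ∃ (m : ℕ) (f : K →+* FractionRing (MvPolynomial (Fin m) F)), ∀ c : 𝓞 F,
    f (algebraMap R K (algebraMap (𝓞 F) R c)) =
      algebraMap (MvPolynomial (Fin m) F) _ (MvPolynomial.C (c : F))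

/-- The curve `y² = x³ + 2 D g² x` over `K`. -/
noncomputable def curveOver (ι : GaussianInt →+* 𝓞 F) (D g : GaussianInt) (R K : Type) [CommRing R]
    [Algebra (𝓞 F) R] [Field K] [Algebra R K] : WeierstrassCurve K :=
  ⟨0, 0, 0, algebraMap R K (algebraMap (𝓞 F) R (ι (2 * (D * g ^ 2)))), 0⟩

open scoped Classical in
/-- The arithmetic of the curve `y² = x³ + 2 D g² x` over `F` and over the function fields `K` of the
models `R` over the integers of `F`:
* the function `Φ₁` over `F` extends to an entire function `Φ`, and if `r = 0`, then `Φ(1) ≠ 0`;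
* for every ring `R` of finite type over `𝓞_F` with `|κ|^e + O(|κ|^(e - 1))` points the function `Φ₁` over
  the field of fractions of `R` is `Φ(s - e) u(s)` with a function `u` without zeros that is analytic
  for `Re s > e + 1/2`;
* the group of the points over `F` is finitely generated of rank at most `r` times the degree of `F`,
  and it is finite if `r = 0`;
* for all the `K` in fields of rational functions over `F` the group of the points over `K` is
  isomorphic to the group of the points over `F`. -/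
def Tate (ι : GaussianInt →+* 𝓞 F) (D g : GaussianInt) (r : ℕ) : Prop :=
  (∃ Φ : ℂ → ℂ, IsPhi ι D g Φ ∧ Differentiable ℂ Φ ∧ (r = 0 → Φ 1 ≠ 0) ∧
    ∀ (e : ℕ) (R : Type) [CommRing R] [Algebra (𝓞 F) R] [Algebra.FiniteType (𝓞 F) R],
      HasPoints (ι (2 * D)) R e → ∃ u : ℂ → ℂ,
        AnalyticOnNhd ℂ u {s : ℂ | (e : ℝ) + 1 / 2 < s.re} ∧ (∀ s, u s ≠ 0) ∧
        IsPhiModel ι D g R e fun s => Φ (s - e) * u s) ∧
    Module.Finite ℤ (curve ι D g).toAffine.Point ∧
    rank (curve ι D g) ≤ r * Module.finrank ℚ F ∧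
    (r = 0 → Finite (curve ι D g).toAffine.Point) ∧
    ∀ (R K : Type) [CommRing R] [Algebra (𝓞 F) R] [Field K] [Algebra R K],
      IsUnirational F R K →
        Nonempty ((curve ι D g).toAffine.Point ≃+ (curveOver ι D g R K).toAffine.Point)

end defs

open scoped Classical in
/-- The exponent in `𝔽₂` of the quadratic residue symbol `(u / v)`, for distinct primes `u`, `v`. -/
noncomputable def symbol (u v : GaussianInt) : ZMod 2 := if ∃ x : GaussianInt, v ∣ x ^ 2 - u then 0 else 1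

/-- `0` if the norm of `v` is `1` modulo `8`, and `1` if not. -/
def theta (v : GaussianInt) : ZMod 2 := if v.norm % 8 = 1 then 0 else 1

/-- The kernel of the matrix over `𝔽₂` with the entries `(u / v)` off the diagonal and the row sums
`θ(v)`; the rows and columns are indexed by the elements of `S`. -/
def Kernel (S : Finset GaussianInt) : Set (S → ZMod 2) :=
  {t | ∀ v : S, theta v * t v + ∑ u : S, symbol u v * (t v + t u) = 0}

/-- `l` is a prime `≡ 1` modulo `2 + 2i`. -/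
def IsPrimary (l : GaussianInt) : Prop := Prime l ∧ (⟨2, 2⟩ : GaussianInt) ∣ l - 1

/-- `d` is a divisor of `D` and `d ≡ 1` modulo `2 + 2i`. -/
def IsDivisor (d D : GaussianInt) : Prop := d ∣ D ∧ (⟨2, 2⟩ : GaussianInt) ∣ d - 1

/-- The property `P` holds for all the divisors `g` of `D`, all the sets `T` of divisors of `D` (all
`≡ 1` modulo `2 + 2i`) and all the fields `F = ℚ(i)(√d : d ∈ T)`. -/
def All (D : GaussianInt) (P : ∀ (F : Type) [Field F] [NumberField F], (GaussianInt →+* 𝓞 F) →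
    GaussianInt → Prop) : Prop :=
  ∀ g : GaussianInt, IsDivisor g D → ∀ T : Finset GaussianInt, (∀ d ∈ T, IsDivisor d D) →
    ∀ (F : Type) [Field F] [NumberField F] (ι : GaussianInt →+* 𝓞 F), IsGenerated ι T → P F ι g

/-- For all the divisors `g` of `D`, all the sets `T` of divisors of `D` and all the fields
`F = ℚ(i)(√d : d ∈ T)`: Tate's conjecture for `y² = x³ + 2 D g² x` over `F`, and over the function
fields `K`, with both sides `0`, and the bound for the 2-primary part of `Ш`. -/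
def Good (D : GaussianInt) : Prop :=
  All D fun _ _ _ ι g => Tate ι D g 0 ∧ ShaBound (curve ι D g)

/-- For all the divisors `g ≡ 1` modulo `2 + 2i` of `D` and the field `K = ℚ(i)`, the curve
`y² = x³ + 2 D g² x` has infinitely many points over `K` or `Ш[2] ≠ 0`. -/
def Bad (D : GaussianInt) : Prop :=
  ∀ g : GaussianInt, IsDivisor g D →
    ∀ (K : Type) [Field K] [NumberField K] (ι : GaussianInt →+* 𝓞 K), Function.Bijective ι →
      Infinite (curve ι D g).toAffine.Point ∨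
        ∃ x : Pool.Agent.TH841.NF.D.Sha (curve ι D g), x ≠ 0 ∧ 2 • x = 0

/-- All the squarefree Gaussian integers `D ≡ 1` modulo `2 + 2i` of norm at most `X`. -/
def Family (X : ℕ) : Set GaussianInt :=
  {D | Squarefree D ∧ (⟨2, 2⟩ : GaussianInt) ∣ D - 1 ∧ D.norm ≤ X}

/-- The numbers `∏_{i ≥ 0} (1 - 2^{-(2i+1)}) ∏_{i = 1}^{m} 1 / (2^i - 1)`. -/
noncomputable def law (m : ℕ) : ℝ :=
  (∏' i : ℕ, (1 - (1 / 2 : ℝ) ^ (2 * i + 1))) * ∏ i ∈ Finset.range m, (1 / (2 ^ (i + 1) - 1))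

/-- The proportion of the members `D` of `Family X` with the property `P`. -/
noncomputable def proportion (X : ℕ) (P : GaussianInt → Prop) : ℝ :=
  (({D | D ∈ Family X ∧ P D}).ncard : ℝ) / ((Family X).ncard : ℝ)

/-- The mean value of `f` over the members of `Family X`. -/
noncomputable def mean (X : ℕ) (f : GaussianInt → ℝ) : ℝ :=
  (∑ᶠ (D : GaussianInt) (_ : D ∈ Family X), f D) / ((Family X).ncard : ℝ)

/-! ### Proofs -/

section proofs

open Pool.Agent.H427.QK
open Pool.Agent.H427.QX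
open Pool.Agent.H427.QR (rank_G fin_G sha_G shafin_G lfun_ind exists_ind deg_ind DT DT_ne)
open Pool.Agent.H427.CL (cr cr_zero card_kernel lam lawD lawD_le lam_sum)
open Pool.Agent.Y697.MQ (OP Pr Pr_iff Pr_prod gA gθ gA_eq leg)
open Pool.Agent.Y715.Z (em0 em0_ne q4)
open Pool.Agent.Y715.QT (Gen2)

lemma op_iff (l : GaussianInt) : OP l ↔ IsPrimary l :=
  ⟨fun h => ⟨h.pr, (Pr_iff l).1 h.pm⟩, fun h => ⟨h.1, (Pr_iff l).2 h.2⟩⟩

lemma theta_eq {v : GaussianInt} (hv : OP v) : theta v = gθ v := by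
  unfold theta gθ
  have hn : v.norm = v.re * v.re + v.im * v.im := by rw [Zsqrtd.norm_def]; ring
  obtain ⟨h1, h2⟩ | ⟨h1, h2⟩ := hv.pm
  · rw [Pool.Agent.Y697.MQ.ci_pos h1 h2, if_neg (by norm_num : ¬ (1 : ℤ) = -1), if_pos]
    obtain ⟨a, ha⟩ : ∃ a, v.re = 4 * a + 1 := ⟨v.re / 4, by omega⟩
    obtain ⟨b, hb⟩ : ∃ b, v.im = 4 * b := ⟨v.im / 4, by omega⟩
    rw [hn, ha, hb]
    have : (4 * a + 1) * (4 * a + 1) + 4 * b * (4 * b) = 8 * (2 * (a * a) + a + 2 * (b * b)) + 1 := by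
      ring
    omega
  · rw [Pool.Agent.Y697.MQ.ci_neg h1 h2, if_pos rfl, if_neg]
    obtain ⟨a, ha⟩ : ∃ a, v.re = 4 * a + 3 := ⟨v.re / 4, by omega⟩
    obtain ⟨b, hb⟩ : ∃ b, v.im = 4 * b + 2 := ⟨v.im / 4, by omega⟩
    rw [hn, ha, hb]
    have : (4 * a + 3) * (4 * a + 3) + (4 * b + 2) * (4 * b + 2) =
      8 * (2 * (a * a) + 3 * a + 2 * (b * b) + 2 * b + 1) + 5 := by ring
    omega

lemma symbol_eq {u v : GaussianInt} (hu : OP u) (hv : OP v) (hne : v ≠ u) :
    symbol u v = gA v u := by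
  rw [gA_eq hv hu hne]
  unfold symbol leg
  have h1 : ¬ v ∣ u := fun h => hne (hv.dvd hu h)
  rw [if_neg h1]
  by_cases h2 : ∃ x : GaussianInt, v ∣ x ^ 2 - u
  · rw [if_pos h2, if_pos h2, if_neg (by norm_num)]
  · rw [if_neg h2, if_neg h2, if_pos rfl]

lemma kernel_card {S : Finset GaussianInt} (hS : ∀ l ∈ S, OP l) :
    Nat.card (Kernel S) = 2 ^ cr S := by
  have h2 : ∀ x : ZMod 2, x + x = 0 := by decide
  rw [← card_kernel S]
  refine Nat.card_congr (Equiv.subtypeEquivRight fun t => ?_)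
  refine forall_congr' fun v => ?_
  have h : theta v * t v + ∑ u : S, symbol u v * (t v + t u) =
      gθ v * t v + ∑ u : S, gA v u * (t v + t u) := by
    rw [theta_eq (hS v v.2)]
    congr 1
    refine Finset.sum_congr rfl fun u _ => ?_
    by_cases huv : (v : GaussianInt) = u
    · have h3 : v = u := Subtype.ext huv
      subst h3
      rw [h2, mul_zero, mul_zero]
    · rw [symbol_eq (hS u u.2) (hS v v.2) huv]
  rw [h]

/-- the divisors -/
lemma divisors {S : Finset GaussianInt} (hS : ∀ l ∈ S, OP l) {g : GaussianInt}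
    (hg : g ∣ ∏ l ∈ S, l) (hg1 : (⟨2, 2⟩ : GaussianInt) ∣ g - 1) :
    ∃ V ⊆ S, ∏ l ∈ V, l = g := by
  have h1 : Squarefree g := (prod_mem hS).1.squarefree_of_dvd hg
  obtain ⟨V, hV, rfl⟩ := Pool.Agent.H427.QK.ex_set h1 hg1
  refine ⟨V, fun l hl => ?_, rfl⟩
  obtain ⟨q, hq, hlq⟩ := ((hV l hl).pr.dvd_finsetProd_iff _).1
    ((Finset.dvd_prod_of_mem (fun l : GaussianInt => l) hl).trans hg)
  rw [(hV l hl).dvd (hS q hq) hlq]
  exact hq

/-- **the degree of the fields** -/
theorem degree {T : Finset GaussianInt} (hT : ∀ l ∈ T, IsPrimary l) (F : Type) [Field F]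
    [NumberField F] (ι : GaussianInt →+* 𝓞 F) (hι : IsGenerated ι T) :
    Module.finrank ℚ F = 2 ^ (T.card + 1) := by
  obtain ⟨r, hr1, hr2⟩ := hι
  have h := Pool.Agent.Y394.QT.dim2 F ι ∅ T r (fun l hl => absurd hl (Finset.notMem_empty _))
    (fun q hq => Pool.Agent.R428.G.toPP ((op_iff q).2 (hT q hq))) (Finset.disjoint_empty_left T)
    ⟨fun l hl => absurd hl (Finset.notMem_empty _), hr1, fun L h1 _ h2 => hr2 L h1 h2⟩
  rw [h, Finset.card_empty, pow_zero, one_mul, pow_succ, mul_comm]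

/-- the sets of divisors -/
lemma dt_of {S : Finset GaussianInt} (hS : ∀ l ∈ S, OP l) {T : Finset GaussianInt}
    (hT : ∀ d ∈ T, IsDivisor d (∏ l ∈ S, l)) : DT S T := fun d hd =>
  divisors hS (hT d hd).1 (hT d hd).2

/-- an independent set of generators -/
lemma gens {T : Finset GaussianInt} (hT : ∀ d ∈ T, d ≠ 0) {F : Type} [Field F]
    [NumberField F] {ι : GaussianInt →+* 𝓞 F} (hι : IsGenerated ι T) :
    ∃ (T' : Finset GaussianInt) (r : GaussianInt → 𝓞 F), T' ⊆ T ∧ Gen2 ι ∅ T' r ∧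
      Module.finrank ℚ F = 2 * 2 ^ T'.card := by
  obtain ⟨r, hr1, hr2⟩ := hι
  have hG : Gen2 ι ∅ T r := ⟨fun l hl => absurd hl (Finset.notMem_empty _), hr1,
    fun L h1 _ h2 => hr2 L h1 h2⟩
  obtain ⟨T', h1, h2, h3⟩ := exists_ind ι T hT hG
  exact ⟨T', r, h1, h3, deg_ind (fun d hd => hT d (h1 hd)) h2 ι h3⟩

/-- **the degree of the fields in general** -/
theorem degree' {D : GaussianInt} (hD : D ≠ 0) {T : Finset GaussianInt}
    (hT : ∀ d ∈ T, IsDivisor d D) (F : Type) [Field F]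
    [NumberField F] (ι : GaussianInt →+* 𝓞 F) (hι : IsGenerated ι T) :
    ∃ n ≤ T.card, Module.finrank ℚ F = 2 ^ (n + 1) := by
  obtain ⟨T', r, h1, -, h3⟩ := gens (fun d hd h0 => hD (by
    have h1 := (hT d hd).1
    rw [h0] at h1
    exact zero_dvd_iff.1 h1)) hι
  exact ⟨T'.card, Finset.card_le_card h1, by rw [h3, pow_succ, mul_comm]⟩

/-- the primes of good reduction -/
lemma good_red {S V : Finset GaussianInt} (hV : V ⊆ S) {F : Type} [Field F] [NumberField F]
    (ι : GaussianInt →+* 𝓞 F) (v : HeightOneSpectrum (𝓞 F))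
    (hv : ι (2 * ∏ l ∈ S, l) ∉ v.asIdeal) :
    (2 : 𝓞 F) ∉ v.asIdeal ∧ ι (2 * ((∏ l ∈ S, l) * (∏ l ∈ V, l) ^ 2)) ∉ v.asIdeal := by
  have hpr := v.isPrime
  have h2 : (2 : 𝓞 F) ∉ v.asIdeal := fun h => hv (by
    rw [map_mul, map_ofNat]
    exact v.asIdeal.mul_mem_right _ h)
  have hS : ι (∏ l ∈ S, l) ∉ v.asIdeal := fun h => hv (by
    rw [map_mul]
    exact v.asIdeal.mul_mem_left _ h)
  refine ⟨h2, fun h => ?_⟩
  rw [map_mul, map_mul, map_pow, map_ofNat] at h
  rcases hpr.mem_or_mem h with h3 | h3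
  · exact h2 h3
  · rcases hpr.mem_or_mem h3 with h4 | h4
    · exact hS h4
    · have h5 := hpr.mem_of_pow_mem _ h4
      obtain ⟨c, hc⟩ := Finset.prod_dvd_prod_of_subset V S (fun l : GaussianInt => l) hV
      apply hS
      rw [hc, map_mul]
      exact v.asIdeal.mul_mem_right _ h5

/-- **the closed points of the models** -/
lemma models {S V : Finset GaussianInt} (hV : V ⊆ S) {F : Type} [Field F] [NumberField F]
    (ι : GaussianInt →+* 𝓞 F) {L : ℂ → ℂ} (hL : IsPhi ι (∏ l ∈ S, l) (∏ l ∈ V, l) L) (e : ℕ)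
    (R : Type) [CommRing R] [Algebra (𝓞 F) R] [Algebra.FiniteType (𝓞 F) R]
    (hR : HasPoints (ι (2 * ∏ l ∈ S, l)) R e) : ∃ u : ℂ → ℂ,
      AnalyticOnNhd ℂ u {s : ℂ | (e : ℝ) + 1 / 2 < s.re} ∧ (∀ s, u s ≠ 0) ∧
      IsPhiModel ι (∏ l ∈ S, l) (∏ l ∈ V, l) R e fun s => L (s - e) * u s := by
  obtain ⟨A, hA⟩ := hR
  obtain ⟨u, h1, h2, h3⟩ := Pool.Agent.H427.QR.transfer (R := R)
    (ι (2 * ((∏ l ∈ S, l) * (∏ l ∈ V, l) ^ 2))) (ι (2 * ∏ l ∈ S, l)) (good_red hV ι) (e := e)
    (A := A) (by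
      intro w hw κ _ _ φ hφ
      refine hA κ φ fun h => hw ?_
      rw [← hφ]
      exact h)
  refine ⟨u, h1, h2, fun s hs => h3 s hs (L (s - e)) (hL (s - e) ?_)⟩
  rw [Complex.sub_re, Complex.natCast_re]
  linarith

/-- **the points over the function fields** -/
lemma points_over {S V : Finset GaussianInt} (hS : ∀ l ∈ S, OP l) (hV : V ⊆ S) {F : Type} [Field F]
    [NumberField F] (ι : GaussianInt →+* 𝓞 F) (R K : Type) [CommRing R] [Algebra (𝓞 F) R] [Field K]
    [Algebra R K] (hK : IsUnirational F R K) :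
    Nonempty (Pool.Agent.Y682.MP (curve ι (∏ l ∈ S, l) (∏ l ∈ V, l)) ≃+
      Pool.Agent.Y682.MP (curveOver ι (∏ l ∈ S, l) (∏ l ∈ V, l) R K)) := by
  obtain ⟨m, f, hf⟩ := hK
  obtain ⟨j, hj1, hj2⟩ := Pool.Agent.H427.QR.exists_j f hf
  have h1 := Pool.Agent.H427.QR.exists_equiv j f hj2
    (Pool.Agent.H427.QR.cf_F_ne hS hV ι)
  rw [hj1] at h1
  exact h1

/-- **all the members** -/
theorem all_tate {S : Finset GaussianInt} (hS : ∀ l ∈ S, OP l) :
    All (∏ l ∈ S, l) fun _ _ _ ι g => Tate ι (∏ l ∈ S, l) g (cr S) := by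
  intro g hg T hT F _ _ ι hι
  obtain ⟨V, hV, rfl⟩ := divisors hS hg.1 hg.2
  obtain ⟨T', r, hT', hG, hdeg⟩ := gens (DT_ne hS (dt_of hS hT)) hι
  have hDT : DT S T' := dt_of hS fun d hd => hT d (hT' hd)
  obtain ⟨L, hL1, hL2, hL3⟩ := lfun_ind hS hDT hV ι hG hdeg
  obtain ⟨h1, h2⟩ := rank_G hS hDT hV ι hG
  have hL : IsPhi ι (∏ l ∈ S, l) (∏ l ∈ V, l) L := fun s hs => hL3 s hs
  refine ⟨⟨L, hL, hL1, fun h0 => hL2 ((cr_zero S).1 h0), fun e R _ _ _ hR =>
    models hV ι hL e R hR⟩, h1, ?_, fun h0 => fin_G hS h0 hDT hV ι hG, fun R K _ _ _ _ hK =>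
    points_over hS hV ι R K hK⟩
  rw [hdeg, mul_comm]
  rw [pow_succ'] at h2
  exact h2

theorem all_sha {S : Finset GaussianInt} (hS : ∀ l ∈ S, OP l) (hk : Ker S) :
    All (∏ l ∈ S, l) fun _ _ _ ι g => ShaBound (curve ι (∏ l ∈ S, l) g) := by
  intro g hg T hT F _ _ ι hι
  obtain ⟨V, hV, rfl⟩ := divisors hS hg.1 hg.2
  obtain ⟨T', r, hT', hG, hdeg⟩ := gens (DT_ne hS (dt_of hS hT)) hι
  have hDT : DT S T' := dt_of hS fun d hd => hT d (hT' hd)
  refine ⟨shafin_G hS hk hDT hV ι hG, fun k x hx => ?_⟩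
  rw [hdeg, Nat.mul_div_cancel_left _ (by norm_num)]
  exact sha_G hS hk hDT hV ι hG k x hx

theorem good_of {S : Finset GaussianInt} (hS : ∀ l ∈ S, OP l) (hk : Ker S) :
    Good (∏ l ∈ S, l) := by
  intro g hg T hT F _ _ ι hι
  have h1 := all_tate hS g hg T hT F ι hι
  rw [(cr_zero S).2 hk] at h1
  exact ⟨h1, all_sha hS hk g hg T hT F ι hι⟩

theorem bad_of {S : Finset GaussianInt} (hS : ∀ l ∈ S, OP l) (hk : ¬ Ker S) :
    Bad (∏ l ∈ S, l) := by
  classical
  intro g hg K _ _ ι hι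
  obtain ⟨V, hV, rfl⟩ := divisors hS hg.1 hg.2
  by_contra hcon
  rw [not_or, not_infinite_iff_finite, not_exists] at hcon
  apply hk
  let e : GaussianInt ≃+* 𝓞 K := RingEquiv.ofBijective ι hι
  have h1 : curve ι (∏ l ∈ S, l) (∏ l ∈ V, l) = q4 (em0 e (2 * PD S (exV V))) := by
    rw [PD_exV hV]
    rfl
  rw [h1] at hcon
  intro t ht
  refine convX e hS (EX_exV S V) hcon.1 (fun x hx => ?_) t ht
  by_contra hx0
  exact hcon.2 x ⟨hx0, hx⟩

lemma gen_empty : IsGenerated (F := Pool.Agent.X253.QT.QI.K4)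
    (Pool.Agent.X253.QT.QI.e : GaussianInt →+* 𝓞 Pool.Agent.X253.QT.QI.K4) ∅ := by
  refine ⟨fun _ => 0, fun l hl => absurd hl (Finset.notMem_empty _), fun L hL _ => ?_⟩
  rw [eq_top_iff]
  intro x _
  obtain ⟨a, b, hb, rfl⟩ := IsFractionRing.div_surjective
    (A := 𝓞 Pool.Agent.X253.QT.QI.K4) (K := Pool.Agent.X253.QT.QI.K4) x
  have h1 : ∀ c : 𝓞 Pool.Agent.X253.QT.QI.K4,
      algebraMap (𝓞 Pool.Agent.X253.QT.QI.K4) Pool.Agent.X253.QT.QI.K4 c ∈ L := by
    intro c
    have h2 := hL (Pool.Agent.X253.QT.QI.e.symm c)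
    have h3 : (Pool.Agent.X253.QT.QI.e : GaussianInt →+* 𝓞 Pool.Agent.X253.QT.QI.K4)
        (Pool.Agent.X253.QT.QI.e.symm c) = c := Pool.Agent.X253.QT.QI.e.apply_symm_apply c
    rw [h3] at h2
    exact h2
  exact L.div_mem (h1 a) (h1 b)

lemma degK : Module.finrank ℚ Pool.Agent.X253.QT.QI.K4 = 2 := by
  have h := degree (T := ∅) (fun l hl => absurd hl (Finset.notMem_empty _)) _ _ gen_empty
  rw [h]
  rfl

lemma not_good {S : Finset GaussianInt} (hS : ∀ l ∈ S, OP l) (hk : ¬ Ker S) :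
    ¬ Good (∏ l ∈ S, l) := by
  intro h
  have h0 : IsDivisor 1 (∏ l ∈ S, l) := ⟨one_dvd _, by rw [sub_self]; exact dvd_zero _⟩
  obtain ⟨⟨-, -, -, h1, -⟩, -, h2⟩ := h 1 h0 ∅
    (fun l hl => absurd hl (Finset.notMem_empty _)) _ _ gen_empty
  rcases bad_of hS hk 1 h0 _ (Pool.Agent.X253.QT.QI.e :
    GaussianInt →+* 𝓞 Pool.Agent.X253.QT.QI.K4) Pool.Agent.X253.QT.QI.e.bijective with
    h3 | ⟨x, hx, h4⟩
  · exact h3.not_finite (h1 rfl)
  · apply hx
    have h5 := h2 1 x (by rw [pow_one]; exact h4)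
    rw [degK] at h5
    have h6 : (2 / 2 : ℕ) = 1 := rfl
    rwa [h6, one_smul] at h5

theorem good_iff {S : Finset GaussianInt} (hS : ∀ l ∈ S, OP l) :
    Good (∏ l ∈ S, l) ↔ Ker S :=
  ⟨fun h => by
    by_contra hk
    exact not_good hS hk h, good_of hS⟩

lemma law_zero : law 0 = ∏' i : ℕ, (1 - (1 / 2 : ℝ) ^ (2 * i + 1)) := by
  unfold law
  rw [Finset.range_zero, Finset.prod_empty, mul_one]

theorem density : Filter.Tendsto (fun X : ℕ => proportion X Good) Filter.atTop (nhds (law 0)) := by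
  rw [law_zero]
  exact dens Good fun S hS => by rw [good_iff hS, Dt_iff_Ker]

/-- the function `r` -/
theorem exists_r : ∃ r : GaussianInt → ℕ, ∀ S : Finset GaussianInt, (∀ l ∈ S, OP l) →
    r (∏ l ∈ S, l) = cr S := by
  have h : ∀ D : GaussianInt, ∃ n : ℕ, ∀ S : Finset GaussianInt, (∀ l ∈ S, OP l) →
      ∏ l ∈ S, l = D → n = cr S := by
    intro D
    by_cases hD : ∃ S : Finset GaussianInt, (∀ l ∈ S, OP l) ∧ ∏ l ∈ S, l = D
    · obtain ⟨S, hS, rfl⟩ := hD
      refine ⟨cr S, fun T hT h => ?_⟩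
      rw [Pool.Agent.Y697.PP.prod_inj hT hS h]
    · exact ⟨0, fun S hS h => absurd ⟨S, hS, h⟩ hD⟩
  choose r hr using h
  exact ⟨r, fun S hS => hr _ S hS rfl⟩

theorem mean_ranks (k : ℕ) (γ : GaussianInt → GaussianInt) (τ : GaussianInt → Finset GaussianInt)
    (hγ : ∀ D : GaussianInt, IsDivisor (γ D) D)
    (hτ : ∀ D : GaussianInt, ∀ d ∈ τ D, IsDivisor d D)
    (F : GaussianInt → Type) [∀ D, Field (F D)] [∀ D, NumberField (F D)]
    (ι : ∀ D : GaussianInt, GaussianInt →+* 𝓞 (F D)) (hι : ∀ D, IsGenerated (ι D) (τ D)) {c : ℝ}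
    (hc : ∑' m : ℕ, (m : ℝ) ^ k * law m < c) :
    ∀ᶠ X : ℕ in Filter.atTop, mean X (fun D =>
      ((rank (curve (ι D) D (γ D)) : ℝ) / (Module.finrank ℚ (F D) : ℝ)) ^ k) < c := by
  refine Pool.Agent.H427.CL.meanD_le (F := fun m => (m : ℝ) ^ k) (Pool.Agent.H427.CL.pow_bd k)
    (f := fun D => ((rank (curve (ι D) D (γ D)) : ℝ) / (Module.finrank ℚ (F D) : ℝ)) ^ k)
    (fun S hS => ?_) hc
  obtain ⟨-, -, h1, -, -⟩ := all_tate hS (γ (∏ l ∈ S, l)) (hγ _) (τ (∏ l ∈ S, l)) (hτ _)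
    (F (∏ l ∈ S, l)) (ι (∏ l ∈ S, l)) (hι _)
  have h0 : (0 : ℝ) < (Module.finrank ℚ (F (∏ l ∈ S, l)) : ℝ) := by
    exact_mod_cast Module.finrank_pos
  have h2 : (rank (curve (ι (∏ l ∈ S, l)) (∏ l ∈ S, l) (γ (∏ l ∈ S, l))) : ℝ) /
      (Module.finrank ℚ (F (∏ l ∈ S, l)) : ℝ) ≤ (cr S : ℝ) := by
    rw [div_le_iff₀ h0]
    exact_mod_cast h1
  show _ ^ k ≤ (cr S : ℝ) ^ k
  gcongr

end proofs

/-- **Main theorem.** -/
theorem result :
    -- all members of the family
    (∀ D : GaussianInt, Squarefree D → (⟨2, 2⟩ : GaussianInt) ∣ D - 1 →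
      ∃ S : Finset GaussianInt, (∀ l ∈ S, IsPrimary l) ∧ ∏ l ∈ S, l = D) ∧
    -- the degree of the fields
    (∀ D : GaussianInt, D ≠ 0 → ∀ T : Finset GaussianInt, (∀ d ∈ T, IsDivisor d D) →
      ∀ (F : Type) [Field F] [NumberField F] (ι : GaussianInt →+* 𝓞 F), IsGenerated ι T →
        ∃ n ≤ T.card, Module.finrank ℚ F = 2 ^ (n + 1)) ∧
    (∀ T : Finset GaussianInt, (∀ l ∈ T, IsPrimary l) → ∀ (F : Type) [Field F] [NumberField F]
      (ι : GaussianInt →+* 𝓞 F), IsGenerated ι T → Module.finrank ℚ F = 2 ^ (T.card + 1)) ∧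
    -- the affine spaces over the rings of integers, and the fields of rational functions
    (∀ (F : Type) [Field F] [NumberField F] (M : 𝓞 F) (e : ℕ),
      HasPoints M (MvPolynomial (Fin e) (𝓞 F)) e ∧
      IsUnirational F (MvPolynomial (Fin e) (𝓞 F))
        (FractionRing (MvPolynomial (Fin e) (𝓞 F)))) ∧
    (∃ r : GaussianInt → ℕ,
      (∀ S : Finset GaussianInt, (∀ l ∈ S, IsPrimary l) →
        Nat.card (Kernel S) = 2 ^ r (∏ l ∈ S, l) ∧
        All (∏ l ∈ S, l) (fun _ _ _ ι g => Tate ι (∏ l ∈ S, l) g (r (∏ l ∈ S, l))) ∧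
        (r (∏ l ∈ S, l) = 0 → Good (∏ l ∈ S, l)) ∧ (r (∏ l ∈ S, l) ≠ 0 → Bad (∏ l ∈ S, l))) ∧
      -- the law of `r`
      (∀ m : ℕ, Filter.Tendsto (fun X : ℕ => proportion X (fun D => r D = m)) Filter.atTop
        (nhds (law m))) ∧
      ∀ (f : ℕ → ℝ) (C : ℝ) (k : ℕ), (∀ n : ℕ, |f n| ≤ C * ((n : ℝ) + 1) ^ k) →
        (Summable fun m : ℕ => f m * law m) ∧
        Filter.Tendsto (fun X : ℕ => mean X (fun D => f (r D))) Filter.atTop
          (nhds (∑' m : ℕ, f m * law m))) ∧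
    HasSum law 1 ∧ 0.4194 < law 0 ∧ law 0 < 0.4195 ∧ 0.998 < ∑ j ∈ Finset.range (3 + 1), law j ∧
    -- the exact proportion
    Filter.Tendsto (fun X : ℕ => proportion X Good) Filter.atTop (nhds (law 0)) ∧
    -- the mean values of the ranks
    (∀ (γ : GaussianInt → GaussianInt) (τ : GaussianInt → Finset GaussianInt),
      (∀ D : GaussianInt, IsDivisor (γ D) D) → (∀ D : GaussianInt, ∀ d ∈ τ D, IsDivisor d D) →
      ∀ (F : GaussianInt → Type) [∀ D, Field (F D)] [∀ D, NumberField (F D)]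
        (ι : ∀ D : GaussianInt, GaussianInt →+* 𝓞 (F D)), (∀ D, IsGenerated (ι D) (τ D)) →
        (∀ᶠ X : ℕ in Filter.atTop, mean X (fun D =>
          (rank (curve (ι D) D (γ D)) : ℝ) / (Module.finrank ℚ (F D) : ℝ)) < 0.765) ∧
        ∀ (k : ℕ) (ε : ℝ), 0 < ε → ∀ᶠ X : ℕ in Filter.atTop, mean X (fun D =>
          ((rank (curve (ι D) D (γ D)) : ℝ) / (Module.finrank ℚ (F D) : ℝ)) ^ k) <
            ∑' m : ℕ, (m : ℝ) ^ k * law m + ε) := by
  have hl0 : (0.4194 : ℝ) < law 0 := by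
    rw [law_zero]; exact Pool.Agent.Y948.CQ.t_C2.2.2.2.1
  have hl1 : law 0 < 0.4195 := by
    rw [law_zero]; exact Pool.Agent.Y948.CQ.t_C2.2.2.2.2
  refine ⟨fun D h1 h2 => ?_, fun D hD T hT F _ _ ι hι => degree' hD hT F ι hι,
    fun T hT F _ _ ι hι => degree hT F ι hι, fun F _ _ M e => ⟨⟨0, fun κ _ _ φ _ => ?_⟩, ?_⟩, ?_,
    Pool.Agent.H427.CL.lam_sum, hl0, hl1, ?_, density, fun γ τ hγ hτ F _ _ ι hι =>
    ⟨?_, fun k ε hε => mean_ranks k γ τ hγ hτ F ι hι (lt_add_of_pos_right _ hε)⟩⟩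
  · obtain ⟨S, hS, hD⟩ := Pool.Agent.H427.QK.ex_set h1 h2
    exact ⟨S, fun l hl => (op_iff l).1 (hS l hl), hD⟩
  · rw [Pool.Agent.H427.QR.card_mv, Nat.cast_pow, sub_self, abs_zero, zero_mul]
  · obtain ⟨f, hf⟩ := Pool.Agent.H427.QR.unir_mv (F := F) e
    exact ⟨e, f, hf⟩
  · obtain ⟨r, hr⟩ := exists_r
    refine ⟨r, fun S hS => ?_, fun m => Pool.Agent.H427.CL.lawD m (fun D => r D = m) fun S hS => by rw [hr S hS],
      fun f C k hf => ⟨Pool.Agent.H427.CL.lam_summ hf, Pool.Agent.H427.CL.meanD hf hr⟩⟩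
    have hS' : ∀ l ∈ S, Pool.Agent.Y697.MQ.OP l := fun l hl => (op_iff l).2 (hS l hl)
    rw [hr S hS']
    exact ⟨kernel_card hS', all_tate hS',
      fun h0 => good_of hS' ((Pool.Agent.H427.CL.cr_zero S).1 h0),
      fun h0 => bad_of hS' fun h => h0 ((Pool.Agent.H427.CL.cr_zero S).2 h)⟩
  · have h1 : ∑ j ∈ Finset.range (3 + 1), law j = law 0 * (50 / 21) := by
      rw [law_zero]
      unfold law
      simp only [Finset.sum_range_succ, Finset.prod_range_succ, Finset.sum_range_zero,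
        Finset.prod_range_zero]
      ring
    rw [h1]
    linarith
  · have h1 : ∑' m : ℕ, (m : ℝ) ^ 1 * law m < 0.765 := by
      simp only [pow_one]
      exact Pool.Agent.H427.CL.mean_lt hl1
    have h2 := mean_ranks 1 γ τ hγ hτ F ι hι h1
    simp only [pow_one] at h2
    exact h2

end Pool.Agent.Results.MP_9faec4_nt.QuarticTwistsGenusFields
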