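import Pool.Agent.H876.Cyc.Iface

/-!
# Tate's invariant `z` and spaces of configurations of points on four lines

For a scheme `X` of finite type over `ℤ` and a natural number `i` we consider the complex
`⊕_{dim x = i+1} k(x)^× → ⊕_{dim y = i} ℤ` of the divisors of rational functions, where the dimension of
a point is the Kronecker dimension of its residue field, and the divisor is defined with the lengths of
the quotients of the one-dimensional local rings. Its kernel is denoted by `UnitGroup X i` and its cokernel
by `ChowGroup X i`. For a regular integral scheme of dimension `i + 1` these are the units and the Picard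
group. **Tate's invariant** is `z_i(X) = rank UnitGroup - rank ChowGroup - ord_{s=i} ζ_X(s)`; it is defined if both
groups are finitely generated and the zeta function has a meromorphic continuation.

Fix the four points `(1 : 0 : 0)`, `(0 : 1 : 0)`, `(0 : 0 : 1)`, `(1 : 1 : 1)` of the projective plane and
the four lines `y = 0`, `y = z`, `z = 0`, `x = 0`. A datum consists of the numbers of the lines of `N`
further points and of a set of triples of the `N + 4` points; the space of the configurations with this
datum is the affine scheme over `ℤ` of all positions of the `N` points on their lines for which the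
collinear triples are exactly the given ones.

We show that every scheme `X` of finite type over `ℤ` is the disjoint union of finitely many locally
closed subschemes which are integral spaces of configurations of pairwise distinct points, smooth over
`ℤ` or over a prime field, such that Tate's invariant of `X` is the sum of their invariants. So for every
hereditary class of arithmetic schemes (for example the class of all schemes of dimension at most
`i + 1`, or of all surfaces over a prime field) Tate's conjecture `z_i = 0` is true for all schemes of the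
class if and only if it is true for the spaces of configurations in the class.
-/

set_option autoImplicit false

open CategoryTheory AlgebraicGeometry TopologicalSpace Pool.Agent.Y116.UV Pool.Agent.Z125.UN
  Pool.Agent.Q193.LT Pool.Agent.H876.PL Pool.Agent.H876.Cyc

namespace Pool.Agent.Results.MP_9faec4_nt.SpacesOfConfigurations

/-- The datum of a space of configurations: there are `N` variable points besides the four points of
the frame, the point `i` is on the line number `line i`, and `coll` is the set of the collinear
triples. -/
structure Datum where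
  N : ℕ
  line : Fin N → Fin 4
  coll : Finset (Lab 0 (Fin N) × Lab 0 (Fin N) × Lab 0 (Fin N))

/-- The ring of functions on the space of configurations, over the integers. -/
abbrev Datum.ring (d : Datum) : Type := ConfRing (![] : Fin 0 → ℤ) d.line d.coll

/-- The space of configurations. -/
noncomputable abbrev Datum.space (d : Datum) : Scheme.{0} := Spec (CommRingCat.of d.ring)

/-- The points of the configurations are pairwise distinct, and their space is integral, smooth over
`ℤ` or over a prime field. -/
structure Datum.IsFine (d : Datum) : Prop where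
  distinct : Distinct d.coll
  domain : IsDomain d.ring
  smooth : Algebra.Smooth ℤ d.ring ∨ ∃ (p : ℕ) (_ : Fact p.Prime) (_ : Algebra (ZMod p) d.ring),
    Algebra.Smooth (ZMod p) d.ring

/-- The class `Q` of schemes contains the locally closed subschemes of its members. -/
def Hereditary (Q : Scheme.{0} → Prop) : Prop :=
  ∀ (Y X : Scheme.{0}) (f : Y ⟶ X), IsImmersion f → Q X → Q Y

/-- Tate's conjecture `z = 0` for the scheme `X`. -/
def Tate (S : Set ℂ) (i : ℕ) (X : Scheme.{0}) : Prop := TateInvariant S i X 0

/-- `X` is the disjoint union of the locally closed subschemes `g k`, which are spaces of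
configurations in the class `Q`; Tate's invariant is additive. -/
structure Decomposition (S : Set ℂ) (i : ℕ) (Q : Scheme.{0} → Prop) (X : Scheme.{0}) {ι : Type}
    [Fintype ι] (d : ι → Datum) (g : ∀ k, (d k).space ⟶ X) : Prop where
  fine : ∀ k, (d k).IsFine
  mem : ∀ k, Q (d k).space
  immersion : ∀ k, IsImmersion (g k)
  partition : ∀ x : X, ∃! k, x ∈ Set.range (g k)
  additive : ∀ n : ι → ℤ, (∀ k, TateInvariant S i (d k).space (n k)) →
    TateInvariant S i X (∑ k, n k)

/-- the family of the spaces of configurations -/
def Fam (Q : Scheme.{0} → Prop) (C : Sch ℤ) : Prop :=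
  ∃ d : Datum, d.IsFine ∧ Q d.space ∧ C = aff ℤ d.ring

lemma fine_of {d : Datum} (h1 : Distinct d.coll) (h2 : IsDomain d.ring) (h3 : SmZ d.ring) :
    d.IsFine := ⟨h1, h2, h3⟩

lemma hered_of {Q : Scheme.{0} → Prop} (hQ : Hereditary Q) : Hered fun X : Sch ℤ => Q X.left where
  iso {X Y} e h := by
    obtain ⟨e⟩ := e
    have hi : IsIso e.inv.left := inferInstanceAs (IsIso ((Over.forget _).mapIso e).inv)
    exact hQ _ _ e.inv.left inferInstance h
  closed {Z X} i hi h := hQ _ _ i.left inferInstance h
  opened {U X} j hj h := hQ _ _ j.left inferInstance h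

theorem decomposition {S : Set ℂ} {i : ℕ} (hS : (i : ℂ) ∈ S) {Q : Scheme.{0} → Prop}
    (hQ : Hereditary Q) (X : Scheme.{0}) (f : X ⟶ Spec (CommRingCat.of ℤ))
    (h1 : LocallyOfFiniteType f) (h2 : QuasiCompact f) (hX : Q X) :
    ∃ (ι : Type) (_ : Fintype ι) (d : ι → Datum) (g : ∀ k, (d k).space ⟶ X),
      Decomposition S i Q X d g := by
  have hI := additive_tateInv (S := S) (i := i) hS
  have hft : FT False (Over.mk f : Sch ℤ) := ⟨h1, h2, fun h => h.elim⟩
  have key : StrataI (Fam Q) (fun (X : Sch ℤ) n => TateInv S i X.left n) (Over.mk f) := by
    refine conf_int (glue_strI (Fam Q) hI) (hered_of hQ)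
      (confFam_of_ring (glue_strI (Fam Q) hI) (hered_of hQ) generic_int ?_) ?_ _ hft hX
    · intro N l Z h1 h2 h3 h4
      exact strI_one ⟨⟨N, l, Z⟩, fine_of (d := ⟨N, l, Z⟩) h1 h2 h3, h4, rfl⟩
    · intro B _ _ hB
      exact strI_empty hI (inferInstanceAs (IsEmpty (PrimeSpectrum B)))
  obtain ⟨ι, hι, C, g, hC, hg, hx, hadd⟩ := key
  choose d hd hdQ hCd using hC
  obtain rfl : C = fun k => aff ℤ (d k).ring := funext hCd
  exact ⟨ι, hι, d, fun k => (g k).left, hd, hdQ, hg, hx, hadd⟩

/-- Tate's conjecture for all schemes of finite type over `ℤ` in the class `Q`. -/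
def AllSchemes (S : Set ℂ) (i : ℕ) (Q : Scheme.{0} → Prop) : Prop :=
  ∀ (X : Scheme.{0}) (f : X ⟶ Spec (CommRingCat.of ℤ)),
    LocallyOfFiniteType f → QuasiCompact f → Q X → Tate S i X

/-- Tate's conjecture for the spaces of configurations in the class `Q`. -/
def Configurations (S : Set ℂ) (i : ℕ) (Q : Scheme.{0} → Prop) : Prop :=
  ∀ d : Datum, d.IsFine → Q d.space → Tate S i d.space

lemma hereditary_dim (n : ℕ) : Hereditary fun X => topologicalKrullDim X ≤ n :=
  fun _ _ f _ h => (f.isEmbedding.isInducing.topologicalKrullDim_le).trans h

theorem tate_iff {S : Set ℂ} {i : ℕ} (hS : (i : ℂ) ∈ S) {Q : Scheme.{0} → Prop}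
    (hQ : Hereditary Q) : AllSchemes S i Q ↔ Configurations S i Q := by
  constructor
  · intro h d _ hd
    have hft : FT False (aff ℤ d.ring) :=
      have := ft_ring (![] : Fin 0 → ℤ) d.line d.coll
      ft_aff False
    exact h d.space _ hft.locallyOfFiniteType hft.quasiCompact hd
  · intro h X f h1 h2 hX
    obtain ⟨ι, _, d, g, hdec⟩ := decomposition hS hQ X f h1 h2 hX
    have h3 := hdec.additive (fun _ => 0) fun k => h (d k) (hdec.fine k) (hdec.mem k)
    rw [Finset.sum_const_zero] at h3
    exact h3

/-- **Tate's invariant and spaces of configurations of points on four lines.** -/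
theorem result (S : Set ℂ) (i : ℕ) (hS : (i : ℂ) ∈ S) :
    (∀ Q : Scheme.{0} → Prop, Hereditary Q → ∀ (X : Scheme.{0}) (f : X ⟶ Spec (CommRingCat.of ℤ)),
      LocallyOfFiniteType f → QuasiCompact f → Q X →
        ∃ (ι : Type) (_ : Fintype ι) (d : ι → Datum) (g : ∀ k, (d k).space ⟶ X),
          Decomposition S i Q X d g) ∧
    (∀ Q : Scheme.{0} → Prop, Hereditary Q → (AllSchemes S i Q ↔ Configurations S i Q)) ∧
    ∀ n : ℕ, AllSchemes S i (fun X => topologicalKrullDim X ≤ n) ↔
      Configurations S i (fun X => topologicalKrullDim X ≤ n) :=
  ⟨fun _ hQ X f h1 h2 hX => decomposition hS hQ X f h1 h2 hX, fun _ hQ => tate_iff hS hQ,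
    fun n => tate_iff hS (hereditary_dim n)⟩

end Pool.Agent.Results.MP_9faec4_nt.SpacesOfConfigurations
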